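import Pool.Agent.H848.SF.Fin
import Pool.Agent.H848.FL.Cn
import Pool.Agent.H848.BKD.TwO

/-!
# Project SF: the formula for the admissible parameters, and the law
-/

set_option autoImplicit false
set_option linter.unusedSectionVars false
set_option linter.unusedVariables false

attribute [-instance] DivisionRing.toRatAlgebra

open NumberField IsDedekindDomain WeierstrassCurve

namespace Pool.Agent.H848.SF

open Pool.Agent.H463.QE (Fs IsP MP)
open Pool.Agent.Y698 (RR EX aR fR)
open Pool.Agent.R384 (OO s7 om)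
open Pool.Agent.H848.BKD (Ad phi Ck crk PS exists_ps isP_iff cork_eq ck_iff phi_om)
open Pool.Agent.NH57.BK.AlgP
open Pool.Agent.TH841.NF.D (Sha)

/-- **the exact formula** -/
theorem sel_ck {K : Type} [Field K] [NumberField K] (e : RR ≃+* 𝓞 K) {D J : OO} (hD : Ad D)
    (hJ : D = 1 + 4 * J) {r : ℕ} (hr : Ck D r) :
    Module.Finite ℤ (Mw (EX K (Pool.Agent.R426.QC.em e (phi J)))) ∧
      Finite {x : Sha (EX K (Pool.Agent.R426.QC.em e (phi J))) // 2 • x = 0} ∧
      2 ^ (Module.finrank ℤ (Mw (EX K (Pool.Agent.R426.QC.em e (phi J))))) *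
        Nat.card {x : Sha (EX K (Pool.Agent.R426.QC.em e (phi J))) // 2 • x = 0} = 4 ^ r := by
  classical
  obtain ⟨S, hS, hprod, hf, hDe⟩ := exists_ps hD
  have hJ' : ∏ ϖ ∈ S.image phi, ϖ = 1 + 4 * phi J := by
    rw [← hDe, hJ, map_add, map_one, map_mul, map_ofNat]
  obtain ⟨h1, h2, h3⟩ := sel_exact e hf hJ'
  refine ⟨h1, h2, ?_⟩
  rw [h3]
  have hP := (isP_iff hS hf hDe (insert (-s7) S)).2 rfl
  obtain ⟨g1, g2⟩ := rank_MP phi.symm hf (D := phi D) hDe (P := insert (-s7) S) (by
    rw [← phi_om, phi.symm_apply_apply, phi.symm_apply_apply]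
    exact hP)
  have h4 : r = (insert (-s7) S).card - (MP (insert (-s7) S)).rank := (ck_iff hP r).1 hr
  rw [← g2, ← g1, h4]

end Pool.Agent.H848.SF
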