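import Pool.Graph.R_seed8.Y682.ZS

/-!
# Project SF: the exact number of the locally trivial cocycles with values in the points killed by two

(The first half follows `Pool.Agent.Y682.Zc_lower`.)
-/

set_option autoImplicit false
set_option linter.unusedSectionVars false
set_option linter.unusedVariables false

attribute [-instance] DivisionRing.toRatAlgebra

open NumberField IsDedekindDomain

namespace Pool.Agent.H848.SF

open WeierstrassCurve
open Pool.Agent.Y682
open Pool.Agent.TH841.NF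

open Pool.Agent.TH841.SH (IsR IsX gf isX_zero isX_some not_isX)

open Pool.Agent.TH841.SH.D (Pt act Gal Coch IsCoc IsCob LocTriv cob)

section

variable {K : Type} [Field K] [NumberField K] {W : WeierstrassCurve K} {A B : K}

/-- **the number of the locally trivial cocycles** -/
theorem Zc_eq (hhalf : ∀ P : Pt W (AlgebraicClosure K), ∃ Q, P = Q + Q)
    (h4 : Nat.card (tp2 W) = 4) (hfg : Module.Finite ℤ (MP W)) (hfz : Finite (Zc W)) :
    Finite {x : Pool.Agent.TH841.NF.D.Sha W // 2 • x = 0} ∧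
    Nat.card (Zc W) = 4 * 2 ^ (Module.finrank ℤ (MP W)) *
      Nat.card {x : Pool.Agent.TH841.NF.D.Sha W // 2 • x = 0} := by
  classical
  -- the classes of Sha
  have hsha : ∀ x : {x : Pool.Agent.TH841.NF.D.Sha W // 2 • x = 0}, ∃ f : Zc W,
      (QuotientAddGroup.mk (⟨f.1, f.2.1⟩ : Pool.Agent.TH841.NF.D.shaCoc W) :
        Pool.Agent.TH841.NF.D.Sha W) = x.1 := by
    rintro ⟨x, hx⟩
    induction x using QuotientAddGroup.induction_on with
    | H f0 =>
      have h1 : IsCob W ((2 • f0 : Pool.Agent.TH841.NF.D.shaCoc W) : Coch W) :=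
        (QuotientAddGroup.eq_zero_iff (2 • f0)).1 hx
      obtain ⟨P0, hP0⟩ := isCob_iff.1 h1
      obtain ⟨Q0, hQ0⟩ := hhalf P0
      have hP0' : f0.1 + f0.1 = dl Q0 + dl Q0 := by
        rw [← dl_add, ← hQ0, ← hP0, two_smul]
        rfl
      refine ⟨⟨f0.1 - dl Q0, sha_sub f0.2 (dl_sha Q0), fun σ => ?_⟩, ?_⟩
      · have h3 : f0.1 - dl Q0 + (f0.1 - dl Q0) = (f0.1 + f0.1) - (dl Q0 + dl Q0) := by abel
        have h4 : f0.1 - dl Q0 + (f0.1 - dl Q0) = 0 := by rw [h3, hP0', sub_self]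
        exact congrFun h4 σ
      · refine (QuotientAddGroup.eq (s := (cob W).addSubgroupOf
          (Pool.Agent.TH841.NF.D.shaCoc W))).2 ?_
        change IsCob W (-(f0.1 - dl Q0) + f0.1)
        refine isCob_iff.2 ⟨Q0, ?_⟩
        abel
  choose fs hfs using hsha
  -- the classes of points
  have hpt : ∀ q : MP W ⧸ (zsmulAddGroupHom (α := MP W) 2).range, ∃ (P : MP W)
      (Q : Pt W (AlgebraicClosure K)), (QuotientAddGroup.mk P : MP W ⧸ _) = q ∧
      inc W P = Q + Q := by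
    intro q
    obtain ⟨P, hP⟩ := QuotientAddGroup.mk_surjective q
    obtain ⟨Q, hQ⟩ := hhalf (inc W P)
    exact ⟨P, Q, hP, hQ⟩
  choose Pq Qv hPq hQv using hpt
  have hQZ : ∀ q, dl (Qv q) ∈ Zc W := by
    intro q
    refine ⟨dl_sha _, fun σ => ?_⟩
    have h1 : dl (Qv q) + dl (Qv q) = 0 := by rw [← dl_add, ← hQv, dl_inc]
    exact congrFun h1 σ
  have hRZ : ∀ t ∈ ((dlh W).comp (tp2 W).subtype).range, t ∈ Zc W := by
    rintro _ ⟨R, rfl⟩
    refine ⟨dl_sha _, fun σ => ?_⟩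
    have h1 : dl R.1 + dl R.1 = 0 := by
      rw [← dl_add]
      have : R.1 + R.1 = 0 := R.2
      rw [this, dl_zero]
    exact congrFun h1 σ
  let G : {x : Pool.Agent.TH841.NF.D.Sha W // 2 • x = 0} ×
      (MP W ⧸ (zsmulAddGroupHom (α := MP W) 2).range) × ((dlh W).comp (tp2 W).subtype).range →
      Zc W := fun y => fs y.1 + ⟨dl (Qv y.2.1), hQZ _⟩ + ⟨y.2.2.1, hRZ _ y.2.2.2⟩
  have hG : Function.Injective G := by
    rintro ⟨x, q, t⟩ ⟨x', q', t'⟩ h
    have h0 : (fs x).1 + dl (Qv q) + t.1 = (fs x').1 + dl (Qv q') + t'.1 :=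
      congrArg Subtype.val h
    obtain ⟨R, hR⟩ := t.2
    obtain ⟨R', hR'⟩ := t'.2
    have hR1 : dl R.1 = t.1 := hR
    have hR1' : dl R'.1 = t'.1 := hR'
    have hx : x = x' := by
      apply Subtype.ext
      rw [← hfs x, ← hfs x']
      refine (QuotientAddGroup.eq (s := (cob W).addSubgroupOf
          (Pool.Agent.TH841.NF.D.shaCoc W))).2 ?_
      change IsCob W (-(fs x).1 + (fs x').1)
      refine isCob_iff.2 ⟨Qv q - Qv q' + (R.1 - R'.1), ?_⟩
      rw [dl_add, dl_sub, dl_sub, hR1, hR1']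
      have h3 : (fs x').1 = (fs x).1 + dl (Qv q) + t.1 - dl (Qv q') - t'.1 := by
        rw [h0]; abel
      rw [h3]
      abel
    subst hx
    have h1 : dl (Qv q - Qv q' + (R.1 - R'.1)) = 0 := by
      rw [dl_add, dl_sub, dl_sub, hR1, hR1']
      have h3 : dl (Qv q) + t.1 = dl (Qv q') + t'.1 := by
        have h4 : (fs x).1 + (dl (Qv q) + t.1) = (fs x).1 + (dl (Qv q') + t'.1) := by
          rw [← add_assoc, ← add_assoc]; exact h0
        exact add_left_cancel h4
      have h4 : dl (Qv q) - dl (Qv q') + (t.1 - t'.1) =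
          (dl (Qv q) + t.1) - (dl (Qv q') + t'.1) := by abel
      rw [h4, h3, sub_self]
    obtain ⟨M, hM⟩ := exists_inc h1
    have hq : q = q' := by
      rw [← hPq q, ← hPq q', QuotientAddGroup.eq]
      refine ⟨-M, ?_⟩
      change (2 : ℤ) • (-M) = -Pq q + Pq q'
      apply inc_inj W
      rw [map_add, map_neg, hQv, hQv, two_zsmul, map_add, map_neg, hM]
      have h5 : R.1 + R.1 = 0 := R.2
      have h6 : R'.1 + R'.1 = 0 := R'.2
      have h7 : -(Qv q - Qv q' + (R.1 - R'.1)) + -(Qv q - Qv q' + (R.1 - R'.1)) =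
          -(Qv q + Qv q) + (Qv q' + Qv q') - (R.1 + R.1) + (R'.1 + R'.1) := by abel
      rw [h7, h5, h6, sub_zero, add_zero]
    subst hq
    have ht : t = t' := by
      apply Subtype.ext
      exact add_left_cancel h0
    rw [ht]
  have hGs : Function.Surjective G := by
    intro f
    obtain ⟨x0, hx0⟩ : ∃ x : Pool.Agent.TH841.NF.D.Sha W,
        x = QuotientAddGroup.mk (⟨f.1, f.2.1⟩ : Pool.Agent.TH841.NF.D.shaCoc W) := ⟨_, rfl⟩
    have hff : (⟨f.1, f.2.1⟩ : Pool.Agent.TH841.NF.D.shaCoc W) + ⟨f.1, f.2.1⟩ = 0 :=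
      Subtype.ext (funext fun σ => f.2.2 σ)
    have hx2 : 2 • x0 = 0 := by
      rw [two_nsmul, hx0]
      refine (QuotientAddGroup.eq_zero_iff (N := (cob W).addSubgroupOf
        (Pool.Agent.TH841.NF.D.shaCoc W)) ((⟨f.1, f.2.1⟩ : Pool.Agent.TH841.NF.D.shaCoc W) +
        ⟨f.1, f.2.1⟩)).2 ?_
      rw [hff]
      exact AddSubgroup.zero_mem _
    obtain ⟨x, hx⟩ : ∃ x : {x : Pool.Agent.TH841.NF.D.Sha W // 2 • x = 0}, x.1 = x0 :=
      ⟨⟨x0, hx2⟩, rfl⟩
    have h1 := hfs x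
    rw [hx, hx0] at h1
    have h2 : IsCob W (-(fs x).1 + f.1) := (QuotientAddGroup.eq (s := (cob W).addSubgroupOf
          (Pool.Agent.TH841.NF.D.shaCoc W))).1 h1
    obtain ⟨Q', hQ'⟩ := isCob_iff.1 h2
    have hQQ : dl (Q' + Q') = 0 := by
      rw [dl_add, ← hQ']
      funext σ
      change (-(fs x).1 σ + f.1 σ) + (-(fs x).1 σ + f.1 σ) = 0
      have h3 : (-(fs x).1 σ + f.1 σ) + (-(fs x).1 σ + f.1 σ) =
        (f.1 σ + f.1 σ) - ((fs x).1 σ + (fs x).1 σ) := by abel
      rw [h3, f.2.2 σ, (fs x).2.2 σ, sub_zero]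
    obtain ⟨P, hP⟩ := exists_inc hQQ
    obtain ⟨q, hq⟩ : ∃ q : MP W ⧸ (zsmulAddGroupHom (α := MP W) 2).range,
        q = QuotientAddGroup.mk P := ⟨_, rfl⟩
    have h5 : (QuotientAddGroup.mk (Pq q) : MP W ⧸ (zsmulAddGroupHom (α := MP W) 2).range) =
        QuotientAddGroup.mk P := (hPq q).trans hq
    obtain ⟨P', hP'⟩ := QuotientAddGroup.eq.1 h5
    have hP'' : (2 : ℤ) • P' = -Pq q + P := hP'
    have h6 : inc W P' + inc W P' = -(Qv q + Qv q) + (Q' + Q') := by
      rw [← map_add, ← two_zsmul, hP'', map_add, map_neg, hQv, hP]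
    have hR : (Q' - inc W P' - Qv q) + (Q' - inc W P' - Qv q) = 0 := by
      have h7 : (Q' - inc W P' - Qv q) + (Q' - inc W P' - Qv q) =
        (Q' + Q') - (inc W P' + inc W P') - (Qv q + Qv q) := by abel
      rw [h7, h6]
      abel
    have hdR : dl (Q' - inc W P' - Qv q) = dl Q' - dl (Qv q) := by
      rw [dl_sub, dl_sub, dl_inc, sub_zero]
    refine ⟨(x, q, ⟨dl (Q' - inc W P' - Qv q), ⟨⟨Q' - inc W P' - Qv q, hR⟩, rfl⟩⟩), ?_⟩
    apply Subtype.ext
    change (fs x).1 + dl (Qv q) + dl (Q' - inc W P' - Qv q) = f.1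
    rw [hdR, ← hQ']
    abel
  have hfin := Finite.of_injective G hG
  have hne1 : Nonempty {x : Pool.Agent.TH841.NF.D.Sha W // 2 • x = 0} := ⟨⟨0, smul_zero _⟩⟩
  have hfin1 : Finite {x : Pool.Agent.TH841.NF.D.Sha W // 2 • x = 0} :=
    Finite.of_injective (fun x => G (x, (0, 0))) (fun x y h => by
      have := hG h
      exact congrArg Prod.fst this)
  refine ⟨hfin1, ?_⟩
  have hcard := Nat.card_congr (Equiv.ofBijective G ⟨hG, hGs⟩)
  rw [Nat.card_prod, Nat.card_prod] at hcard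
  have hq := Pool.Agent.TeamU.card_quot_two (MP W)
  have hfin4 : Finite (tp2 W) := Nat.finite_of_card_ne_zero (by rw [h4]; norm_num)
  have h5 : Nat.card ((dlh W).comp (tp2 W).subtype).range *
      Nat.card ((dlh W).comp (tp2 W).subtype).ker = 4 := by
    rw [← h4, AddSubgroup.card_eq_card_quotient_mul_card_addSubgroup
      ((dlh W).comp (tp2 W).subtype).ker]
    congr 1
    exact (Nat.card_congr (QuotientAddGroup.quotientKerEquivRange _).toEquiv).symm
  rw [hq, ← card_ker W] at hcard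
  rw [← hcard]
  calc _ = Nat.card {x : Pool.Agent.TH841.NF.D.Sha W // 2 • x = 0} *
        (2 ^ (Module.finrank ℤ (MP W)) * (Nat.card ((dlh W).comp (tp2 W).subtype).range *
          Nat.card ((dlh W).comp (tp2 W).subtype).ker)) := by ring
    _ = _ := by rw [h5]; ring

end

end Pool.Agent.H848.SF
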