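import Pool.Agent.H848.SF.Rk

/-!
# Project SF: the exact formula `2 ^ rank · #Ш[2] = 4 ^ r`
-/

set_option autoImplicit false
set_option linter.unusedSectionVars false
set_option linter.unusedVariables false

attribute [-instance] DivisionRing.toRatAlgebra

open NumberField IsDedekindDomain WeierstrassCurve

namespace Pool.Agent.H848.SF

open WithZero
open Pool.Agent.H463.QE
open Pool.Agent.R426.QC Pool.Agent.R426.QD
open Pool.Agent.Y698 Pool.Agent.Y698.SG
open Pool.Agent.Y682 (Zc MP.group IsT tp2 exists_half card_tp2 fg_MP)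
open Pool.Agent.TH841.SH.D (Pt act Gal Coch IsCoc IsCob LocTriv cob)
open Pool.Agent.TH841.NF.D (IsShaCoc shaCoc Sha)

/-- the group of the rational points -/
abbrev Mw {K : Type} [Field K] (W : WeierstrassCurve K) : Type := Pool.Agent.Y682.MP W

section

variable {K : Type} [Field K] [NumberField K]

/-- the transport of the locally trivial cocycles -/
lemma zc_tr (j t : K) : Nat.card (Zc (EX K j)) = Nat.card (Zc (E2 K j t)) := by
  let E : Pt (EX K j) (AlgebraicClosure K) ≃ Pt (E2 K j t) (AlgebraicClosure K) :=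
    Equiv.ofBijective (vPe K j t (AlgebraicClosure K)) ⟨vPe_inj K j t _, vPe_surj K j t _⟩
  have two : ∀ P : Pt (EX K j) (AlgebraicClosure K), P + P = 0 ↔
      vPe K j t (AlgebraicClosure K) P + vPe K j t (AlgebraicClosure K) P = 0 := by
    intro P
    rw [← map_add]
    constructor
    · intro h
      rw [h, map_zero]
    · intro h
      apply vPe_inj K j t (AlgebraicClosure K)
      rw [h, map_zero]
  refine Nat.card_congr (Equiv.ofBijective (fun f : Zc (EX K j) =>
    (⟨vCo j t f.1, sha_vCo j t f.2.1, fun σ => (two _).1 (f.2.2 σ)⟩ : Zc (E2 K j t))) ⟨?_, ?_⟩)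
  · intro f g h
    apply Subtype.ext
    funext σ
    apply vPe_inj K j t (AlgebraicClosure K)
    exact congrFun (congrArg Subtype.val h) σ
  · rintro ⟨g, hg, hg2⟩
    obtain ⟨f, rfl⟩ : ∃ f : Coch (EX K j), vCo j t f = g :=
      ⟨fun σ => E.symm (g σ), by funext σ; exact E.apply_symm_apply (g σ)⟩
    refine ⟨⟨f, ⟨coc_of_vCo j t hg.1, fun v => loc_of_vCo j t (hg.2.1 v),
      fun v => loc_of_vCo j t (hg.2.2 v)⟩, fun σ => (two _).2 (hg2 σ)⟩, rfl⟩

/-- the homomorphism on the rational points -/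
noncomputable def mwE (j t : K) : Mw (EX K j) →+ Mw (E2 K j t) where
  toFun := vFe (vchK j t)
  map_zero' := rfl
  map_add' := @vFe_add K _ _ _ _ _ _ (vchK j t) (Classical.decEq K)

variable (e : RR ≃+* 𝓞 K)

/-- the general properties of the curves -/
lemma gen_props {D J : RR} (hD : D ≠ 0) (hJ : D = 1 + 4 * J) :
    (∀ P : Pt (EX K (em e J)) (AlgebraicClosure K), ∃ Q, P = Q + Q) ∧
      Nat.card (tp2 (EX K (em e J))) = 4 ∧ Module.Finite ℤ (Mw (EX K (em e J))) := by
  have hDj : em e D = 1 + 4 * em e J := by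
    rw [hJ, map_add, map_mul, map_one, map_ofNat]
  have hDe : (1 + 4 * em e J) ≠ 0 := by rw [← hDj]; exact em_ne e hD
  obtain ⟨t, ht⟩ : ∃ t, t = -((1 + 4 * em e J) * eB (em e aR)) := ⟨_, rfl⟩
  have hT : IsT (E2 K (em e J) t) (cA (em e aR) (1 + 4 * em e J))
      (cB (em e aR) (1 + 4 * em e J)) := by
    rw [ht]
    exact isT_E2 (ema_sq e) hDe
  refine ⟨fun P => ?_, ?_, ?_⟩
  · obtain ⟨Q, hQ⟩ := exists_half hT (vPe K (em e J) t (AlgebraicClosure K) P)
    obtain ⟨Q', rfl⟩ := vPe_surj K (em e J) t (AlgebraicClosure K) Q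
    refine ⟨Q', ?_⟩
    apply vPe_inj K (em e J) t (AlgebraicClosure K)
    rw [map_add]
    exact hQ
  · rw [← card_tp2 hT]
    refine Nat.card_congr (Equiv.ofBijective (fun P : tp2 (EX K (em e J)) =>
      (⟨vPe K (em e J) t (AlgebraicClosure K) P.1, ?_⟩ : tp2 (E2 K (em e J) t))) ⟨?_, ?_⟩)
    · have h1 : P.1 + P.1 = 0 := P.2
      show vPe K (em e J) t _ P.1 + vPe K (em e J) t _ P.1 = 0
      rw [← map_add, h1, map_zero]
    · intro P Q h
      exact Subtype.ext (vPe_inj K (em e J) t _ (congrArg Subtype.val h))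
    · rintro ⟨Q, hQ⟩
      obtain ⟨P, rfl⟩ := vPe_surj K (em e J) t (AlgebraicClosure K) Q
      refine ⟨⟨P, ?_⟩, rfl⟩
      show P + P = 0
      apply vPe_inj K (em e J) t (AlgebraicClosure K)
      rw [map_add, map_zero]
      exact hQ
  · have h1 : Module.Finite ℤ (Mw (E2 K (em e J) t)) := fg_MP hT
    exact Module.Finite.of_injective (mwE (em e J) t).toIntLinearMap (vFe_inj (vchK (em e J) t))

/-- **the exact formula** -/
theorem sel_exact {ι : Type} [DecidableEq ι] {I : Finset ι} {π : ι → RR} (hf : Fs I π) {J : RR}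
    (hJ : ∏ i ∈ I, π i = 1 + 4 * J) :
    Module.Finite ℤ (Mw (EX K (em e J))) ∧ Finite {x : Sha (EX K (em e J)) // 2 • x = 0} ∧
      2 ^ (Module.finrank ℤ (Mw (EX K (em e J)))) *
        Nat.card {x : Sha (EX K (em e J)) // 2 • x = 0} =
      4 ^ ((se I).card - (gm (Pool.Agent.H463.QE.mt (pe π)) (mr (pe π)) (se I)).rank) := by
  obtain ⟨c, hc⟩ : ∃ c, c = (se I).card -
    (gm (Pool.Agent.H463.QE.mt (pe π)) (mr (pe π)) (se I)).rank := ⟨_, rfl⟩
  have c1 := card_Sg hf.sr none_se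
  have c2 := card_SgT hf.sr none_se
  rw [← hc] at c1 c2
  obtain ⟨u1, u2⟩ := zc_le e hf hJ
  have htr := zc_tr (em e J) (-((1 + 4 * em e J) * eB (em e aR)))
  have hpos : 0 < Nat.card (Zc (E2 K (em e J) (-((1 + 4 * em e J) * eB (em e aR))))) :=
    Nat.card_pos
  have hfin : Finite (Zc (EX K (em e J))) := Nat.finite_of_card_ne_zero (by rw [htr]; omega)
  have l1 := zc_ge e hf hJ hfin
  rw [c1, c2] at u2 l1
  have h1 : Nat.card (Zc (EX K (em e J))) = 4 * 4 ^ c := by
    have e1 : 4 * 4 ^ c = 2 * 2 ^ c * (2 * 2 ^ c) := by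
      rw [show (4 : ℕ) = 2 * 2 from rfl, mul_pow]
      ring
    rw [e1]
    refine le_antisymm ?_ l1
    rw [htr]
    exact u2
  obtain ⟨g1, g2, g3⟩ := gen_props e hf.sqf.ne_zero hJ
  obtain ⟨s1, s2⟩ := Zc_eq g1 g2 g3 hfin
  refine ⟨g3, s1, ?_⟩
  rw [← hc]
  rw [h1] at s2
  have h2 : 4 * (2 ^ (Module.finrank ℤ (Mw (EX K (em e J)))) *
        Nat.card {x : Sha (EX K (em e J)) // 2 • x = 0}) = 4 * 4 ^ c := by
    rw [s2]; ring
  exact Nat.eq_of_mul_eq_mul_left (by norm_num) h2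

end

end Pool.Agent.H848.SF
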