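import Pool.Agent.H848.BKD.Adm

/-!
# Project SF: the number of the solutions of the linear system of the descent
-/

set_option autoImplicit false
set_option linter.unusedSectionVars false
set_option linter.unusedVariables false

namespace Pool.Agent.H848.SF

open Pool.Agent.H463.QE (Sr ind add_self2)
open Pool.Agent.H848.BKD (lin_bij card_kerT)

variable {V : Type} [DecidableEq V]

/-- the matrix -/
def gm (t : V → ZMod 2) (r : V → V → ZMod 2) (S : Finset V) : Matrix S S (ZMod 2) :=
  Matrix.of fun i j : S => if i = j then t i + ∑ k ∈ S.erase i, r i k else r i j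

/-- the sets which solve the system -/
def Sg (r : V → V → ZMod 2) (S : Finset V) : Finset (Finset V) :=
  S.powerset.filter fun T => ∀ i ∈ S, ∑ u ∈ S, r i u * (ind T i + ind T u) = 0

variable {t : V → ZMod 2} {r : V → V → ZMod 2} {S : Finset V}

lemma mem_Sg {T : Finset V} : T ∈ Sg r S ↔ T ⊆ S ∧
    ∀ i ∈ S, ∑ u ∈ S, r i u * (ind T i + ind T u) = 0 := by
  unfold Sg
  rw [Finset.mem_filter, Finset.mem_powerset]

lemma sum_erase_coe (f : V → ZMod 2) (p : S) :
    ∑ q ∈ Finset.univ.erase p, f (q : V) = ∑ k ∈ S.erase (p : V), f k := by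
  have h1 : f (p : V) + ∑ q ∈ Finset.univ.erase p, f (q : V) = f (p : V) + ∑ k ∈ S.erase (p : V), f k := by
    rw [Finset.add_sum_erase S f p.2,
      Finset.add_sum_erase Finset.univ (fun q : S => f (q : V)) (Finset.mem_univ p),
      Finset.sum_coe_sort S f]
  exact add_left_cancel h1

lemma gm_diag (p : S) : gm t r S p p = t p + ∑ q ∈ Finset.univ.erase p, gm t r S p q := by
  have h1 : ∀ q ∈ Finset.univ.erase p, gm t r S p q = r p q := by
    intro q hq
    unfold gm
    rw [Matrix.of_apply, if_neg (Ne.symm (Finset.ne_of_mem_erase hq))]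
  rw [Finset.sum_congr rfl h1, sum_erase_coe (fun k => r p k) p]
  unfold gm
  rw [Matrix.of_apply, if_pos rfl]

lemma gm_mul (x : V → ZMod 2) (p : S) :
    (gm t r S).mulVec (fun q : S => x q) p + t p * x p = ∑ u ∈ S, r p u * (x p + x u) := by
  have h1 : (gm t r S).mulVec (fun q : S => x q) p = ∑ q : S, gm t r S p q * x q := rfl
  rw [h1, ← Finset.add_sum_erase _ _ (Finset.mem_univ p)]
  have h2 : ∀ q ∈ Finset.univ.erase p, gm t r S p q * x q = r p q * x q := by
    intro q hq
    unfold gm
    rw [Matrix.of_apply, if_neg (Ne.symm (Finset.ne_of_mem_erase hq))]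
  have h3 : gm t r S p p = t p + ∑ k ∈ S.erase (p : V), r p k := by
    unfold gm
    rw [Matrix.of_apply, if_pos rfl]
  rw [Finset.sum_congr rfl h2, sum_erase_coe (fun k => r p k * x k) p, h3,
    ← Finset.add_sum_erase S _ p.2, add_self2, mul_zero, zero_add]
  have h4 : ∑ u ∈ S.erase (p : V), r p u * (x p + x u) =
      (∑ u ∈ S.erase (p : V), r p u) * x p + ∑ u ∈ S.erase (p : V), r p u * x u := by
    rw [Finset.sum_mul, ← Finset.sum_add_distrib]
    exact Finset.sum_congr rfl fun u _ => mul_add _ _ _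
  rw [h4]
  have h5 := add_self2 (t p * x p)
  linear_combination h5

/-- **the number of the solutions** -/
theorem card_Sg (h : Sr t r S) {o : V} (ho : o ∈ S) :
    (Sg r S).card = 2 * 2 ^ (S.card - (gm t r S).rank) := by
  have hz : ∀ y : ZMod 2, y = 0 ∨ y = 1 := by decide
  have h2 : ∀ y : ZMod 2, y + y = 0 := add_self2
  have key := lin_bij (gm t r S) (fun p : S => t p) ⟨o, ho⟩ gm_diag (fun p q hpq => by
      unfold gm
      rw [Matrix.of_apply, Matrix.of_apply, if_neg hpq, if_neg (Ne.symm hpq),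
        h.sy p p.2 q q.2 (fun h' => hpq (Subtype.ext h'))]
      have := h2 (r p q)
      linear_combination this)
    (by rw [Finset.sum_coe_sort S t]; exact h.od)
  rw [card_kerT, Fintype.card_coe] at key
  rw [key]
  -- the bijection
  have hc2 : Nat.card (ZMod 2) = 2 := Nat.card_zmod 2
  have e1 : (Sg r S).card = Nat.card {T // T ∈ Sg r S} := by
    rw [Nat.card_eq_fintype_card, Fintype.card_coe]
  have hx : ∀ (x : V → ZMod 2) (c : ZMod 2) (i : V), ∑ u ∈ S, r i u * ((x i + c) + (x u + c)) =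
      ∑ u ∈ S, r i u * (x i + x u) := by
    intro x c i
    refine Finset.sum_congr rfl fun u _ => ?_
    have : (x i + c) + (x u + c) = x i + x u := by
      have := h2 c
      linear_combination this
    rw [this]
  have e2 : ∀ m : ℕ, 2 * m = Nat.card (ZMod 2) * m := fun m => by rw [hc2]
  rw [e1, e2, ← Nat.card_prod]
  refine Nat.card_congr ⟨fun T => (ind T.1 o, ⟨fun i : S => ind T.1 i + ind T.1 o, h2 _,
      fun p hp => ?_⟩), fun cv => ⟨S.filter fun i => ∃ hi : i ∈ S, cv.2.1 ⟨i, hi⟩ + cv.1 = 1, ?_⟩,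
      fun T => ?_, fun cv => ?_⟩
  · rw [gm_mul (fun i => ind T.1 i + ind T.1 o) p, hx]
    exact (mem_Sg.1 T.2).2 p p.2
  · rw [mem_Sg]
    refine ⟨Finset.filter_subset _ _, ?_⟩
    obtain ⟨c, v, hv0, hv⟩ := cv
    simp only
    have hind : ∀ i (hi : i ∈ S), ind (S.filter fun i => ∃ hi : i ∈ S, v ⟨i, hi⟩ + c = 1) i =
        v ⟨i, hi⟩ + c := by
      intro i hi
      unfold ind
      by_cases h1 : v ⟨i, hi⟩ + c = 1
      · rw [if_pos (Finset.mem_filter.2 ⟨hi, hi, h1⟩), h1]
      · rw [if_neg]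
        · exact ((hz _).resolve_right h1).symm
        · intro h3
          obtain ⟨-, hi', h4⟩ := Finset.mem_filter.1 h3
          exact h1 h4
    obtain ⟨x, hxd⟩ : ∃ x : V → ZMod 2, x = fun i => if hi : i ∈ S then v ⟨i, hi⟩ else 0 := ⟨_, rfl⟩
    have hxv : ∀ i (hi : i ∈ S), x i = v ⟨i, hi⟩ := by
      intro i hi
      rw [hxd]
      simp only
      rw [dif_pos hi]
    have hxf : (fun q : S => x q) = v := by
      funext q
      exact hxv q q.2
    have hall : ∀ i ∈ S, i ≠ o → ∑ u ∈ S, r i u * (x i + x u) = 0 := by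
      intro i hi hio
      have h3 := hv ⟨i, hi⟩ (fun h' => hio (congrArg Subtype.val h'))
      rw [← hxf] at h3
      rw [← gm_mul (t := t) x ⟨i, hi⟩]
      exact h3
    have hlast := h.last ho hall
    intro i hi
    have h4 : ∑ u ∈ S, r i u * (ind (S.filter fun i => ∃ hi : i ∈ S, v ⟨i, hi⟩ + c = 1) i +
        ind (S.filter fun i => ∃ hi : i ∈ S, v ⟨i, hi⟩ + c = 1) u) =
        ∑ u ∈ S, r i u * ((x i + c) + (x u + c)) := by
      refine Finset.sum_congr rfl fun u hu => ?_
      rw [hind i hi, hind u hu, hxv i hi, hxv u hu]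
    rw [h4, hx]
    by_cases hio : i = o
    · rw [hio]; exact hlast
    · exact hall i hi hio
  · apply Subtype.ext
    have hTS := (mem_Sg.1 T.2).1
    ext i
    simp only [Finset.mem_filter]
    have h3 : ∀ i, (ind T.1 i + ind T.1 o) + ind T.1 o = ind T.1 i := by
      intro i
      have := h2 (ind T.1 o)
      linear_combination this
    constructor
    · rintro ⟨hi, hi', h4⟩
      rw [h3] at h4
      unfold ind at h4
      by_contra h5
      rw [if_neg h5] at h4
      exact zero_ne_one h4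
    · intro hi
      refine ⟨hTS hi, hTS hi, ?_⟩
      rw [h3]
      unfold ind
      rw [if_pos hi]
  · obtain ⟨c, v, hv0, hv⟩ := cv
    have hind : ∀ i (hi : i ∈ S), ind (S.filter fun i => ∃ hi : i ∈ S, v ⟨i, hi⟩ + c = 1) i =
        v ⟨i, hi⟩ + c := by
      intro i hi
      unfold ind
      by_cases h1 : v ⟨i, hi⟩ + c = 1
      · rw [if_pos (Finset.mem_filter.2 ⟨hi, hi, h1⟩), h1]
      · rw [if_neg]
        · exact ((hz _).resolve_right h1).symm
        · intro h3
          obtain ⟨-, hi', h4⟩ := Finset.mem_filter.1 h3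
          exact h1 h4
    have ho' : ind (S.filter fun i => ∃ hi : i ∈ S, v ⟨i, hi⟩ + c = 1) o = c := by
      rw [hind o ho, hv0, zero_add]
    refine Prod.ext ho' (Subtype.ext ?_)
    funext i
    show ind (S.filter fun i => ∃ hi : i ∈ S, v ⟨i, hi⟩ + c = 1) i +
      ind (S.filter fun i => ∃ hi : i ∈ S, v ⟨i, hi⟩ + c = 1) o = v i
    rw [ho', hind i i.2]
    have := h2 c
    linear_combination this

end Pool.Agent.H848.SF
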