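import Pool.Agent.H848.SF.Up2
import Pool.Agent.H463.QE.CnvX

/-!
# Project SF: the classes of all the solutions are everywhere locally trivial
-/

set_option autoImplicit false
set_option linter.unusedSectionVars false
set_option linter.unusedVariables false

attribute [-instance] DivisionRing.toRatAlgebra

open NumberField IsDedekindDomain

namespace Pool.Agent.H848.SF

open WithZero
open Pool.Agent.H463.QE
open Pool.Agent.R426.QC Pool.Agent.R426.QD
open Pool.Agent.Y698 Pool.Agent.Y698.SG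
open Pool.Agent.W192.HK (sp)
open Pool.Agent.Y682 (vv vv_coe charZero_adic Zc)
open Pool.Agent.R426.QC.Cv (LocI WF coc coc_coc coc_two)

section gen

variable {F L : Type} [Field F] [CharZero F] [Field L] [Algebra F L] {a D d : F}

/-- the sum with a point of order two -/
lemma loc_mulT (ha : a ^ 2 = a - 2) (hD : D ≠ 0) (hd : algebraMap F L d ≠ 0)
    (h : LocI F L (cA a D) (cB a D) d)
    (hsq : ∀ s : L, s ^ 2 = algebraMap F L (-(D * (2 * a - 1)) * d) →
      LocI F L (cA a D) (cB a D) (-(D * (2 * a - 1)) * d)) :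
    LocI F L (cA a D) (cB a D) (-(D * (2 * a - 1)) * d) := by
  obtain ⟨X, Y, r, hX, hY, hXd⟩ := h
  rw [cub ha] at hY
  obtain ⟨W, hW⟩ : ∃ W, W = algebraMap F L (D * (2 * a - 1)) := ⟨_, rfl⟩
  obtain ⟨b, hb⟩ : ∃ b, b = algebraMap F L (1 - a) := ⟨_, rfl⟩
  obtain ⟨δ, hδ⟩ : ∃ δ, δ = algebraMap F L d := ⟨_, rfl⟩
  have hb0 : b ≠ 0 := by
    rw [hb]
    exact (map_ne_zero_iff _ (algebraMap F L).injective).2 (a_ne (ha_conj ha))
  have hW0 : W ≠ 0 := by
    rw [hW]
    exact (map_ne_zero_iff _ (algebraMap F L).injective).2 (mul_ne_zero hD (s_ne ha))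
  have hWd : algebraMap F L (-(D * (2 * a - 1)) * d) = -W * δ := by
    rw [map_mul, map_neg, hW, hδ]
  rw [← hW, ← hb] at hY
  rw [← hδ] at hXd hd
  have hr0 : r ≠ 0 := by
    rintro rfl
    apply hX
    rw [hXd]
    ring
  by_cases h1 : X + W * b ^ 2 = 0
  · refine hsq (δ * r / b) ?_
    rw [hWd, div_pow, mul_pow, div_eq_iff (pow_ne_zero 2 hb0)]
    have h2 : δ * r ^ 2 = -(W * b ^ 2) := by rw [← hXd]; linear_combination h1
    linear_combination δ * h2
  by_cases h3 : X + W * b ^ 6 = 0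
  · refine hsq (δ * r / b ^ 3) ?_
    rw [hWd, div_pow, mul_pow, div_eq_iff (pow_ne_zero 2 (pow_ne_zero 3 hb0))]
    have h2 : δ * r ^ 2 = -(W * b ^ 6) := by rw [← hXd]; linear_combination h3
    linear_combination δ * h2
  refine ⟨-(W * b ^ 2) * (X + W * b ^ 6) / (X + W * b ^ 2),
    Y * (W * b ^ 2) * (-(W * b ^ 2) + W * b ^ 6) / (X + W * b ^ 2) ^ 2,
    b * Y / (δ * r * (X + W * b ^ 2)), ?_, ?_, ?_⟩
  · exact div_ne_zero (mul_ne_zero (neg_ne_zero.2 (mul_ne_zero hW0 (pow_ne_zero 2 hb0))) h3) h1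
  · rw [cub ha, ← hW, ← hb]
    have e1 : -(W * b ^ 2) * (X + W * b ^ 6) / (X + W * b ^ 2) + W * b ^ 2 =
        (W * b ^ 2) * (W * b ^ 2 - W * b ^ 6) / (X + W * b ^ 2) := by
      field_simp
      ring
    have e2 : -(W * b ^ 2) * (X + W * b ^ 6) / (X + W * b ^ 2) + W * b ^ 6 =
        X * (W * b ^ 6 - W * b ^ 2) / (X + W * b ^ 2) := by
      field_simp
      ring
    rw [e1, e2, div_pow, mul_pow, mul_pow, hY]
    field_simp
    ring
  · rw [hWd, div_pow, mul_pow, mul_pow, mul_pow, hY, hXd]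
    rw [hXd] at h1
    field_simp

/-- the classes are classes of squares -/
lemma loc_sq {A B c : F} (hc : c ≠ 0) (h : LocI F L A B (d * c ^ 2)) : LocI F L A B d := by
  obtain ⟨X, Y, r, hX, hY, hXd⟩ := h
  refine ⟨X, Y, algebraMap F L c * r, hX, hY, ?_⟩
  rw [hXd, map_mul, map_pow]
  ring

end gen

/-- the class of a set of primes, not normalized -/
noncomputable def du {ι : Type} (π : ι → RR) (T : Finset (Option ι)) : RR := ∏ o ∈ T, pe π o

lemma du_ne {ι : Type} {I : Finset ι} {π : ι → RR} (hf : Fs I π) {T : Finset (Option ι)}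
    (hT : T ⊆ se I) : du π T ≠ 0 :=
  Finset.prod_ne_zero_iff.2 fun o ho => (hf.fa.pn o (hT ho)).pr.ne_zero

lemma du_se {ι : Type} {I : Finset ι} {π : ι → RR} : du π (se I) = -fR * ∏ i ∈ I, π i := by
  unfold du se
  rw [Finset.prod_insertNone]
  rfl

lemma Sg_compl {V : Type} [DecidableEq V] {r : V → V → ZMod 2} {S T : Finset V}
    (h : T ∈ Sg r S) : S \ T ∈ Sg r S := by
  rw [mem_Sg] at h ⊢
  refine ⟨Finset.sdiff_subset, fun i hi => ?_⟩
  rw [← h.2 i hi]
  refine Finset.sum_congr rfl fun u hu => ?_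
  have key : ∀ j ∈ S, Pool.Agent.H463.QE.ind (S \ T) j = Pool.Agent.H463.QE.ind T j + 1 := by
    intro j hj
    unfold Pool.Agent.H463.QE.ind
    by_cases h1 : j ∈ T
    · rw [if_pos h1, if_neg fun h2 => (Finset.mem_sdiff.1 h2).2 h1]
      decide
    · rw [if_neg h1, if_pos (Finset.mem_sdiff.2 ⟨hj, h1⟩)]
      decide
  rw [key i hi, key u hu]
  have := add_self2 (1 : ZMod 2)
  linear_combination (r i u) * this

section

variable {K : Type} [Field K] [NumberField K] (e : RR ≃+* 𝓞 K)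

/-- the combinatorial form -/
theorem sol_T {ι : Type} [DecidableEq ι] {S : Finset ι} {π : ι → RR} (hf : Fs S π)
    {T' : Finset (Option ι)} (hT' : T' ⊆ se S) (hn : none ∉ T')
    (g1 : ∀ i ∈ se S, i ∉ T' → ∑ j ∈ T', mr (pe π) j i = 0)
    (g2 : ∀ i ∈ se S, i ∈ T' → ∑ j ∈ se S \ T', mr (pe π) j i = 0)
    (v : HeightOneSpectrum (𝓞 K)) :
      LocI K (v.adicCompletion K) (cA (em e aR) (em e (∏ i ∈ S, π i)))
        (cB (em e aR) (em e (∏ i ∈ S, π i))) (em e (du π T')) := by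
  obtain ⟨T, hTd⟩ : ∃ T : Finset ι, T = S.filter fun i => some i ∈ T' := ⟨_, rfl⟩
  have hT : T ⊆ S := by rw [hTd]; exact Finset.filter_subset _ _
  have hmem : ∀ i, i ∈ T ↔ some i ∈ T' := by
    intro i
    rw [hTd, Finset.mem_filter]
    exact ⟨fun h => h.2, fun h => ⟨mem_se.1 (hT' h), h⟩⟩
  have sumT : ∀ f : Option ι → ZMod 2, ∑ o ∈ T', f o = ∑ i ∈ T, f (some i) := by
    intro f
    have h1 : ∑ o ∈ T', f o = ∑ o ∈ se S, (if o ∈ T' then f o else 0) := by
      rw [← Finset.sum_filter]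
      congr 1
      ext o
      rw [Finset.mem_filter]
      exact ⟨fun h => ⟨hT' h, h⟩, fun h => h.2⟩
    rw [h1, se_sumZ, if_neg hn, zero_add]
    have h2 : ∀ i ∈ S, (if some i ∈ T' then f (some i) else 0) =
        if i ∈ T then f (some i) else 0 := by
      intro i _
      by_cases h3 : i ∈ T
      · rw [if_pos ((hmem i).1 h3), if_pos h3]
      · rw [if_neg (fun h => h3 ((hmem i).2 h)), if_neg h3]
    rw [Finset.sum_congr rfl h2, ← Finset.sum_filter]
    congr 1
    ext i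
    rw [Finset.mem_filter]
    exact ⟨fun h => h.2, fun h => ⟨hT h, h⟩⟩
  have hdu : du π T' = ∏ i ∈ T, π i := by
    unfold du
    have h1 : ∏ o ∈ T', pe π o = ∏ o ∈ se S, (if o ∈ T' then pe π o else 1) := by
      rw [← Finset.prod_filter]
      congr 1
      ext o
      rw [Finset.mem_filter]
      exact ⟨fun h => ⟨hT' h, h⟩, fun h => h.2⟩
    have h2 : ∏ o ∈ se S, (if o ∈ T' then pe π o else 1) =
        (if none ∈ T' then pe π none else 1) *
          ∏ i ∈ S, (if some i ∈ T' then pe π (some i) else 1) := by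
      unfold se
      exact Finset.prod_insertNone _ S
    have h3 : ∏ i ∈ S, (if some i ∈ T' then pe π (some i) else 1) = ∏ i ∈ T, π i := by
      rw [← Finset.prod_filter]
      refine Finset.prod_congr ?_ fun i _ => rfl
      ext i
      rw [Finset.mem_filter, hmem]
      exact ⟨fun h => h.2, fun h => ⟨mem_se.1 (hT' h), h⟩⟩
    rw [h1, h2, h3, if_neg hn, one_mul]
  have sumC : ∀ f : Option ι → ZMod 2, ∑ o ∈ se S \ T', f o =
      f none + ∑ i ∈ S \ T, f (some i) := by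
    intro f
    have h1 : ∑ o ∈ se S \ T', f o + ∑ o ∈ T', f o = ∑ o ∈ se S, f o :=
      Finset.sum_sdiff hT'
    have h2 : ∑ i ∈ S \ T, f (some i) + ∑ i ∈ T, f (some i) = ∑ i ∈ S, f (some i) :=
      Finset.sum_sdiff hT
    rw [sumT, se_sumZ, ← h2] at h1
    linear_combination h1
  have hprod : ∀ {ϖ : RR}, Pn ϖ → ∀ U : Finset ι, (∀ j ∈ U, π j ∉ sp ϖ) →
      (∏ j ∈ U, sy ϖ (π j) = 1 ∨ ∏ j ∈ U, sy ϖ (π j) = -1) ∧
        lg (∏ j ∈ U, sy ϖ (π j)) = ∑ j ∈ U, lg (sy ϖ (π j)) := fun _ U h =>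
    sgn_prod fun j hj => sy_sgn (h j hj)
  rw [hdu]
  refine sol_allX e hf hT (fun i hi hiT => ?_) (fun i hiT => ?_) ?_ v
  · have h1 := g1 (some i) (mem_se.2 hi) fun h => hiT ((hmem i).2 h)
    rw [sumT] at h1
    have hpi := hf.e.fa.pn i hi
    have hnm : ∀ j ∈ T, π j ∉ sp (π i) := fun j hj =>
      hf.e.fa.ne j (hT hj) i hi (fun h => hiT (h ▸ hj))
    obtain ⟨h2, h3⟩ := hprod hpi T hnm
    rw [Pn.syprod hpi]
    refine eq_of_lg h2 (Or.inl rfl) ?_
    rw [h3, lg_one, ← h1]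
    rfl
  · have hi := hT hiT
    have h1 := g2 (some i) (mem_se.2 hi) ((hmem i).1 hiT)
    rw [sumC] at h1
    have hpi := hf.e.fa.pn i hi
    have hnm : ∀ j ∈ S \ T, π j ∉ sp (π i) := fun j hj => by
      rw [Finset.mem_sdiff] at hj
      exact hf.e.fa.ne j hj.1 i hi (fun h => hj.2 (h ▸ hiT))
    obtain ⟨h2, h3⟩ := hprod hpi (S \ T) hnm
    have hsf : sy (π i) (-fR) = 1 ∨ sy (π i) (-fR) = -1 := sy_sgn (by
      rw [neg_mem_iff]
      exact hf.h7' i hi)
    rw [hpi.mul, Pn.syprod hpi]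
    refine eq_of_lg (sgn_mul hsf h2) (Or.inl rfl) ?_
    rw [lg_mul hsf h2, h3, lg_one, ← h1]
    rfl
  · have h1 := g1 none none_se hn
    rw [sumT] at h1
    have hnm : ∀ j ∈ T, π j ∉ sp (-fR) := fun j hj => by
      rw [show sp (-fR) = sp fR from Ideal.span_singleton_neg fR]
      exact hf.h7 j (hT hj)
    obtain ⟨h2, h3⟩ := hprod pn_fR T hnm
    rw [← sy_negm, Pn.syprod pn_fR]
    refine eq_of_lg h2 (Or.inl rfl) ?_
    rw [h3, lg_one, ← h1]
    rfl

/-- **all the solutions have local points** -/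
theorem sol_Sg {ι : Type} [DecidableEq ι] {S : Finset ι} {π : ι → RR} (hf : Fs S π)
    {T : Finset (Option ι)} (hT : T ∈ Sg (fun i j => mr (pe π) j i) (se S))
    (v : HeightOneSpectrum (𝓞 K)) :
      LocI K (v.adicCompletion K) (cA (em e aR) (em e (∏ i ∈ S, π i)))
        (cB (em e aR) (em e (∏ i ∈ S, π i))) (em e (du π T)) := by
  have := charZero_adic v
  have key : ∀ T ∈ Sg (fun i j => mr (pe π) j i) (se S), none ∉ T →
      LocI K (v.adicCompletion K) (cA (em e aR) (em e (∏ i ∈ S, π i)))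
        (cB (em e aR) (em e (∏ i ∈ S, π i))) (em e (du π T)) := by
    intro T hT hn
    obtain ⟨hTS, h1⟩ := mem_Sg.1 hT
    refine sol_T e hf hTS hn (fun i hi hiT => ?_) (fun i hi hiT => ?_) v
    · have h2 := h1 i hi
      rw [ind_row hTS (fun i j => mr (pe π) j i), if_neg hiT] at h2
      exact h2
    · have h2 := h1 i hi
      rw [ind_row hTS (fun i j => mr (pe π) j i), if_pos hiT] at h2
      exact h2
  by_cases hn : none ∈ T
  · have hc := key _ (Sg_compl hT) (fun h => (Finset.mem_sdiff.1 h).2 hn)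
    have hTS := (mem_Sg.1 hT).1
    have hD0 : ∏ i ∈ S, π i ≠ 0 := hf.sqf.ne_zero
    have hc0 : du π (se S \ T) ≠ 0 := du_ne hf Finset.sdiff_subset
    have hprod : du π (se S \ T) * du π T = -fR * ∏ i ∈ S, π i := by
      rw [← du_se]
      unfold du
      exact Finset.prod_sdiff hTS
    have h2 := loc_mulT (ema_sq e) (em_ne e hD0) ((map_ne_zero _).2 (em_ne e hc0)) hc (fun s hs => by
      have h3 : -(em e (∏ i ∈ S, π i) * (2 * em e aR - 1)) * em e (du π (se S \ T)) =
          em e (-(fR * ∏ i ∈ S, π i) * du π (se S \ T)) := by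
        rw [map_mul, map_neg, map_mul, em_fR]
        ring
      rw [h3] at hs ⊢
      exact sol_sqE e v (mul_ne_zero (neg_ne_zero.2 (mul_ne_zero fR_ne hD0)) hc0) hs)
    refine loc_sq (c := em e (du π (se S \ T))) (em_ne e hc0) ?_
    have h4 : em e (du π T) * em e (du π (se S \ T)) ^ 2 =
        -(em e (∏ i ∈ S, π i) * (2 * em e aR - 1)) * em e (du π (se S \ T)) := by
      have h5 := congrArg (em e) hprod
      rw [map_mul, map_mul, map_neg, em_fR] at h5
      linear_combination (em e (du π (se S \ T))) * h5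
    rw [h4]
    exact h2
  · exact key T hT hn

end

end Pool.Agent.H848.SF
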