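import Pool.Agent.H848.SF.Low
import Pool.Agent.H848.SF.Ex

/-!
# Project SF: the lower bound for the number of the locally trivial cocycles
-/

set_option autoImplicit false
set_option linter.unusedSectionVars false
set_option linter.unusedVariables false

attribute [-instance] DivisionRing.toRatAlgebra

open NumberField IsDedekindDomain WeierstrassCurve

namespace Pool.Agent.H848.SF

open WithZero
open Pool.Agent.H463.QE
open Pool.Agent.R426.QC Pool.Agent.R426.QD
open Pool.Agent.Y698 Pool.Agent.Y698.SG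
open Pool.Agent.W192.HK (sp)
open Pool.Agent.Y682 (vv vv_coe charZero_adic Zc fix_mem)
open Pool.Agent.R426.QC.Cv (LocI WF coc coc_coc coc_two T0 ns0 T0_add)
open Pool.Agent.TH841.SH.D (Pt act Gal Coch IsCoc IsCob LocTriv cob)
open Pool.Agent.TH841.NF.D (IsShaCoc shaCoc Sha)

section

variable {K : Type} [Field K] [NumberField K] (e : RR ≃+* 𝓞 K)

lemma not_dvd_du {ι : Type} {I : Finset ι} {π : ι → RR} (hf : Fs I π) {U : Finset (Option ι)}
    (hU : U ⊆ se I) {o : Option ι} (ho : o ∈ se I) (hoU : o ∉ U) : ¬ pe π o ∣ du π U := by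
  have hp := (hf.fa.pn o ho).pr
  intro h
  obtain ⟨i, hi, h2⟩ := (hp.dvd_finsetProd_iff _).1 h
  exact hf.fa.ne i (hU hi) o ho (fun h3 => hoU (h3 ▸ hi)) (Ideal.mem_span_singleton.2 h2)

/-- different sets have different classes -/
lemma du_sq {ι : Type} [DecidableEq ι] {I : Finset ι} {π : ι → RR} (hf : Fs I π)
    {T T' : Finset (Option ι)} (hT : T ⊆ se I) (hT' : T' ⊆ se I)
    (h : IsSquare (em e (du π T) * em e (du π T'))) : T = T' := by
  classical
  have key : ∀ T T' : Finset (Option ι), T ⊆ se I → T' ⊆ se I →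
      IsSquare (em e (du π T) * em e (du π T')) → T ⊆ T' := by
    intro T T' hT hT' h o ho
    by_contra hn
    have hp := (hf.fa.pn o (hT ho)).pr
    have h1 : (plc e hp).valuation K (em e (du π T)) = exp (-1 : ℤ) := by
      refine val_mul1 e hp (c := du π (T.erase o)) ?_ (not_dvd_du hf
        ((Finset.erase_subset _ _).trans hT) (hT ho) (Finset.notMem_erase _ _))
      unfold du
      exact (Finset.mul_prod_erase T (pe π) ho).symm
    have h2 : (plc e hp).valuation K (em e (du π T')) = 1 :=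
      val_one' e hp (not_dvd_du hf hT' (hT ho) hn)
    exact nsq (v := plc e hp) (by rw [map_mul, h1, h2, mul_one]) h
  exact Finset.Subset.antisymm (key T T' hT hT' h) (key T' T hT' hT (by rwa [mul_comm]))

/-- the automorphism `σ` moves the square roots of `d` -/
def Mv (d : K) (σ : Gal K) : Prop :=
  ∃ s : AlgebraicClosure K, s ^ 2 = algebraMap K (AlgebraicClosure K) d ∧ σ s ≠ s

/-- the same characters: the same classes -/
lemma sq_of_Mv {d d' : K} (hd : d ≠ 0) (hd' : d' ≠ 0) (h : ∀ σ : Gal K, Mv d σ ↔ Mv d' σ) :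
    IsSquare (d * d') := by
  obtain ⟨s, hs⟩ : ∃ s : AlgebraicClosure K, s ^ 2 = algebraMap K (AlgebraicClosure K) d :=
    IsAlgClosed.exists_pow_nat_eq _ two_pos
  obtain ⟨s', hs'⟩ : ∃ s : AlgebraicClosure K, s ^ 2 = algebraMap K (AlgebraicClosure K) d' :=
    IsAlgClosed.exists_pow_nat_eq _ two_pos
  have hm : ∀ {d : K} {s : AlgebraicClosure K}, s ^ 2 = algebraMap K (AlgebraicClosure K) d →
      ∀ σ : Gal K, (Mv d σ → σ s = -s) ∧ (¬ Mv d σ → σ s = s) := by
    intro d s hs σ
    have h1 := Cv.ap_sq hs σ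
    constructor
    · rintro ⟨r, hr, hne⟩
      rcases h1 with h1 | h1
      · exfalso
        apply hne
        rcases sq_eq_sq_iff_eq_or_eq_neg.1 (hr.trans hs.symm) with h2 | h2
        · rw [h2, h1]
        · rw [h2, map_neg, h1]
      · exact h1
    · intro h2
      by_contra h3
      exact h2 ⟨s, hs, h3⟩
  obtain ⟨y, hy⟩ := fix_mem (K := K) (s * s') fun σ => by
    rw [map_mul]
    by_cases h1 : Mv d σ
    · rw [(hm hs σ).1 h1, (hm hs' σ).1 ((h σ).1 h1)]
      ring
    · rw [(hm hs σ).2 h1, (hm hs' σ).2 (fun h2 => h1 ((h σ).2 h2))]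
  refine ⟨y, ?_⟩
  apply (algebraMap K (AlgebraicClosure K)).injective
  rw [map_mul, map_mul, hy, ← hs, ← hs']
  ring

open scoped Classical in
/-- the cochain -/
noncomputable def cf {W : WeierstrassCurve K} (T : Pt W (AlgebraicClosure K)) (d : K) : Coch W :=
  fun σ => if Mv d σ then T else 0

lemma cf_pos {W : WeierstrassCurve K} (T : Pt W (AlgebraicClosure K)) {d : K} {σ : Gal K}
    (h : Mv d σ) : cf T d σ = T := if_pos h

lemma cf_neg {W : WeierstrassCurve K} (T : Pt W (AlgebraicClosure K)) {d : K} {σ : Gal K}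
    (h : ¬ Mv d σ) : cf T d σ = 0 := if_neg h

/-- the point `(0, 0)` -/
noncomputable def p0 {W : WeierstrassCurve K} (h0 : (W.baseChange (AlgebraicClosure K)).toAffine.Nonsingular 0 0) :
    Pt W (AlgebraicClosure K) := Affine.Point.some 0 0 h0

/-- the transport -/
lemma pull0 {j t : K} {W : WeierstrassCurve K} (hW : E2 K j t = W)
    (h0 : (W.baseChange (AlgebraicClosure K)).toAffine.Nonsingular 0 0)
    (h2 : p0 h0 + p0 h0 = 0) :
    ∃ T : Pt (EX K j) (AlgebraicClosure K), T ≠ 0 ∧ T + T = 0 ∧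
      (∃ (x y : AlgebraicClosure K) (h : _), T = Affine.Point.some x y h ∧
        4 * x - 8 * (1 + 4 * algebraMap K (AlgebraicClosure K) j) +
          algebraMap K (AlgebraicClosure K) t = 0) ∧
      ∀ d : K, IsShaCoc W (cf (p0 h0) d) → IsShaCoc (EX K j) (cf T d) := by
  subst hW
  obtain ⟨T, hT⟩ := vPe_surj K j t (AlgebraicClosure K) (p0 h0)
  have hT0 : T ≠ 0 := by
    rintro rfl
    rw [map_zero] at hT
    exact Affine.Point.some_ne_zero _ hT.symm
  refine ⟨T, hT0, ?_, ?_, fun d hd => ?_⟩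
  · apply vPe_inj K j t (AlgebraicClosure K)
    rw [map_add, hT, map_zero]
    exact h2
  · rcases T with _ | ⟨x, y, h⟩
    · exact absurd rfl hT0
    · refine ⟨x, y, h, rfl, ?_⟩
      exact ((Affine.Point.some.injEq _ _ _ _ _ _).mp hT).1
  · have h1 : vCo j t (cf T d) = cf (p0 h0) d := by
      funext σ
      show vPe K j t (AlgebraicClosure K) (cf T d σ) = _
      by_cases h : Mv d σ
      · rw [cf_pos T h, hT]
        exact (cf_pos _ h).symm
      · rw [cf_neg T h, map_zero]
        exact (cf_neg _ h).symm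
    rw [← h1] at hd
    exact ⟨coc_of_vCo j t hd.1, fun v => loc_of_vCo j t (hd.2.1 v),
      fun v => loc_of_vCo j t (hd.2.2 v)⟩

/-- the classes of one family -/
theorem fam {ι : Type} [DecidableEq ι] {I : Finset ι} {π : ι → RR} (hf : Fs I π) {j : K}
    (hj : em e (∏ i ∈ I, π i) = 1 + 4 * j) :
    ∃ T : Pt (EX K j) (AlgebraicClosure K), T ≠ 0 ∧ T + T = 0 ∧
      (∃ (x y : AlgebraicClosure K) (h : _), T = Affine.Point.some x y h ∧
        4 * x - 8 * (1 + 4 * algebraMap K (AlgebraicClosure K) j) +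
          algebraMap K (AlgebraicClosure K) (-((1 + 4 * j) * eB (em e aR))) = 0) ∧
      ∀ U ∈ Sg (fun i j => mr (pe π) j i) (se I), IsShaCoc (EX K j) (cf T (em e (du π U))) := by
  have hD0 : ∏ i ∈ I, π i ≠ 0 := hf.sqf.ne_zero
  have hDe : (1 + 4 * j) ≠ 0 := by rw [← hj]; exact em_ne e hD0
  have ha := ema_sq e
  have hb0 : cB (em e aR) (1 + 4 * j) ≠ 0 := by
    rw [cB_eq ha]
    exact pow_ne_zero 2 (mul_ne_zero (mul_ne_zero hDe (s_ne ha)) (pow_ne_zero 2 (a_ne ha)))
  obtain ⟨T, h1, h2, h3, h4⟩ := pull0 (E2_Wt ha hDe)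
    (ns0 K (a := cA (em e aR) (1 + 4 * j)) hb0 (AlgebraicClosure K)) (T0_add hb0)
  refine ⟨T, h1, h2, h3, fun U hU => h4 _ ?_⟩
  have h5 : cf (p0 (ns0 K (a := cA (em e aR) (1 + 4 * j)) hb0 (AlgebraicClosure K)))
      (em e (du π U)) = coc K hb0 (em e (du π U)) := by
    funext σ
    by_cases h : Mv (em e (du π U)) σ
    · exact (cf_pos _ h).trans (Cv.coc_pos hb0 h).symm
    · exact (cf_neg _ h).trans (Cv.coc_none hb0 h).symm
  have h6 : IsShaCoc (WF (cA (em e aR) (1 + 4 * j)) (cB (em e aR) (1 + 4 * j)))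
      (coc K hb0 (em e (du π U))) := by
    refine ⟨coc_coc hb0 _, fun v => Cv.Lot.t_LOT hb0 _ _ ?_, fun v => ?_⟩
    · rw [← hj]
      exact sol_Sg e hf hU v
    · refine Cv.Lot.t_LOT hb0 _ _ ?_
      rw [← hj]
      exact sol_inf e v (du_ne hf (mem_Sg.1 hU).1)
  rw [← h5] at h6
  exact h6

end

end Pool.Agent.H848.SF
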