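import Pool.Agent.H848.SF.Low2

/-!
# Project SF: the lower bound for the number of the locally trivial cocycles
-/

set_option autoImplicit false
set_option linter.unusedSectionVars false
set_option linter.unusedVariables false

attribute [-instance] DivisionRing.toRatAlgebra

open NumberField IsDedekindDomain WeierstrassCurve

namespace Pool.Agent.H848.SF

open WithZero
open Pool.Agent.H463.QE
open Pool.Agent.R426.QC Pool.Agent.R426.QD
open Pool.Agent.Y698 Pool.Agent.Y698.SG
open Pool.Agent.W192.HK (sp)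
open Pool.Agent.Y682 (Zc)
open Pool.Agent.TH841.SH.D (Pt act Gal Coch IsCoc IsCob LocTriv cob)
open Pool.Agent.TH841.NF.D (IsShaCoc shaCoc Sha)

section

variable {K : Type} [Field K] [NumberField K] (e : RR ≃+* 𝓞 K)

/-- the pairs of characters -/
lemma pair_inj {W : WeierstrassCurve K} {T T' : Pt W (AlgebraicClosure K)} (hT : T ≠ 0)
    (hT' : T' ≠ 0) (hne : T ≠ T') (h2 : T + T = 0) (h2' : T' + T' = 0) {d1 d1' d2 d2' : K}
    (h : cf T d1 + cf T' d1' = cf T d2 + cf T' d2') (σ : Gal K) :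
    (Mv d1 σ ↔ Mv d2 σ) ∧ (Mv d1' σ ↔ Mv d2' σ) := by
  have h1 : cf T d1 σ + cf T' d1' σ = cf T d2 σ + cf T' d2' σ := congrFun h σ
  have hn : -T = T := neg_eq_of_add_eq_zero_left h2
  have hTT : T + T' ≠ 0 := by
    intro h3
    apply hne
    have h4 := eq_neg_of_add_eq_zero_right h3
    rw [hn] at h4
    exact h4.symm
  by_cases a : Mv d1 σ <;> by_cases b : Mv d1' σ <;> by_cases c : Mv d2 σ <;>
    by_cases d : Mv d2' σ <;> simp only [a, b, c, d, iff_self, and_self, true_iff, false_iff,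
      iff_true, iff_false, not_true, not_false_iff] <;>
    (first | rw [cf_pos T a] at h1 | rw [cf_neg T a] at h1) <;>
    (first | rw [cf_pos T' b] at h1 | rw [cf_neg T' b] at h1) <;>
    (first | rw [cf_pos T c] at h1 | rw [cf_neg T c] at h1) <;>
    (first | rw [cf_pos T' d] at h1 | rw [cf_neg T' d] at h1) <;>
    simp only [add_zero, zero_add] at h1
  all_goals first
    | exact absurd h1 hT
    | exact absurd h1.symm hT
    | exact absurd h1 hT'
    | exact absurd h1.symm hT'
    | exact absurd h1 hne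
    | exact absurd h1.symm hne
    | exact absurd h1 hTT
    | exact absurd h1.symm hTT
    | exact absurd (add_eq_left.1 h1) hT'
    | exact absurd (add_eq_right.1 h1) hT
    | exact absurd (add_eq_left.1 h1.symm) hT'
    | exact absurd (add_eq_right.1 h1.symm) hT

/-- **the lower bound** -/
theorem zc_ge {ι : Type} [DecidableEq ι] {I : Finset ι} {π : ι → RR} (hf : Fs I π) {J : RR}
    (hJ : ∏ i ∈ I, π i = 1 + 4 * J) (hfin : Finite (Zc (EX K (em e J)))) :
    (Sg (fun i j => mr (pe π) j i) (se I)).card * (Sg (mr (pe π)) (se I)).card ≤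
      Nat.card (Zc (EX K (em e J))) := by
  classical
  have hem : ∀ x : RR, em (cjR.trans e) x = em e (cj x) := fun x => rfl
  have hj : em e (∏ i ∈ I, π i) = 1 + 4 * em e J := by
    rw [hJ, map_add, map_mul, map_one, map_ofNat]
  have hj' : em (cjR.trans e) (∏ i ∈ I, cjp (π i)) = 1 + 4 * em e J := by
    rw [hem, prod_cjp hf.e, cj_cj, hj]
  have hDe : (1 + 4 * em e J) ≠ 0 := by rw [← hj]; exact em_ne e hf.sqf.ne_zero
  obtain ⟨T, t1, t2, ⟨x, y, h, hxy, hx⟩, t3⟩ := fam e hf hj
  obtain ⟨T', t1', t2', ⟨x', y', h', hxy', hx'⟩, t3'⟩ := fam (cjR.trans e) hf.cj hj'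
  have hne : T ≠ T' := by
    intro hTT
    rw [hxy, hxy'] at hTT
    have h1 := ((Affine.Point.some.injEq _ _ _ _ _ _).mp hTT).1
    rw [h1] at hx
    have h2 : algebraMap K (AlgebraicClosure K) (-((1 + 4 * em e J) * eB (em e aR))) =
        algebraMap K (AlgebraicClosure K) (-((1 + 4 * em e J) * eB (em (cjR.trans e) aR))) := by
      linear_combination hx - hx'
    have h3 := (algebraMap K (AlgebraicClosure K)).injective h2
    have ha : em (cjR.trans e) aR = 1 - em e aR := by
      rw [hem, R426.QC.cj_aR, map_sub, map_one]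
    rw [ha, eB_conj] at h3
    have h4 := eA_sub (ema_sq e)
    have h5 : (1 + 4 * em e J) * (eA (em e aR) - eB (em e aR)) = 0 := by linear_combination h3
    rw [h4] at h5
    exact mul_ne_zero hDe (s_ne (ema_sq e)) h5
  have hSg : Sg (fun i j => mr (pe fun i => cjp (π i)) j i) (se I) = Sg (mr (pe π)) (se I) := by
    refine Sg_congr fun i hi j hj hij => ?_
    show mr (pe fun i => cjp (π i)) j i = mr (pe π) i j
    rw [pe_cjp]
    exact mr_cjp hf.fa hj hi (Ne.symm hij)
  rw [← hSg]
  have hmem : ∀ (U : {U // U ∈ Sg (fun i j => mr (pe π) j i) (se I)})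
      (U' : {U // U ∈ Sg (fun i j => mr (pe fun i => cjp (π i)) j i) (se I)}),
      cf T (em e (du π U.1)) + cf T' (em (cjR.trans e) (du (fun i => cjp (π i)) U'.1)) ∈
        Zc (EX K (em e J)) := by
    intro U U'
    refine ⟨(shaCoc (EX K (em e J))).add_mem (t3 U.1 U.2) (t3' U'.1 U'.2), fun σ => ?_⟩
    have e1 : ∀ (P : Pt (EX K (em e J)) (AlgebraicClosure K)) (d : K), P + P = 0 →
        cf P d σ + cf P d σ = 0 := by
      intro P d hP
      by_cases hm : Mv d σ
      · rw [cf_pos P hm]; exact hP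
      · rw [cf_neg P hm, add_zero]
    show (cf T _ σ + cf T' _ σ) + (cf T _ σ + cf T' _ σ) = 0
    have e2 : ∀ a b : Pt (EX K (em e J)) (AlgebraicClosure K), (a + b) + (a + b) =
        (a + a) + (b + b) := fun a b => by abel
    rw [e2, e1 T _ t2, e1 T' _ t2', add_zero]
  have key := Nat.card_le_card_of_injective
    (fun p : {U // U ∈ Sg (fun i j => mr (pe π) j i) (se I)} ×
        {U // U ∈ Sg (fun i j => mr (pe fun i => cjp (π i)) j i) (se I)} =>
      (⟨_, hmem p.1 p.2⟩ : Zc (EX K (em e J)))) ?_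
  · rw [Nat.card_prod, Nat.card_eq_fintype_card, Fintype.card_coe, Nat.card_eq_fintype_card,
      Fintype.card_coe] at key
    exact key
  · rintro ⟨U, V⟩ ⟨U', V'⟩ hUV
    have h1 := congrArg Subtype.val hUV
    have h2 := pair_inj t1 t1' hne t2 t2' h1
    have u1 := (mem_Sg.1 U.2).1
    have u2 := (mem_Sg.1 U'.2).1
    have v1 := (mem_Sg.1 V.2).1
    have v2 := (mem_Sg.1 V'.2).1
    have h3 := du_sq e hf u1 u2 (sq_of_Mv (em_ne e (du_ne hf u1)) (em_ne e (du_ne hf u2))
      fun σ => (h2 σ).1)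
    have h4 := du_sq (cjR.trans e) hf.cj v1 v2 (sq_of_Mv (em_ne _ (du_ne hf.cj v1))
      (em_ne _ (du_ne hf.cj v2)) fun σ => (h2 σ).2)
    exact Prod.ext (Subtype.ext h3) (Subtype.ext h4)

end

end Pool.Agent.H848.SF
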