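import Pool.Agent.H848.SF.Low3
import Pool.Agent.H463.QE.OkX

/-!
# Project SF: the exact number of the elements of the 2-Selmer group

(`rank_MP` follows `Pool.Agent.H463.QE.det_MP`.)
-/

set_option autoImplicit false
set_option linter.unusedSectionVars false
set_option linter.unusedVariables false

attribute [-instance] DivisionRing.toRatAlgebra

open NumberField IsDedekindDomain WeierstrassCurve

namespace Pool.Agent.H848.SF

open WithZero
open Pool.Agent.H463.QE
open Pool.Agent.R426.QC Pool.Agent.R426.QD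
open Pool.Agent.Y698 Pool.Agent.Y698.SG
open Pool.Agent.W192.HK (sp)

/-- **the rank of the matrix in the ring of integers** -/
theorem rank_MP {R : Type} [CommRing R] (e : RR ≃+* R) {D : RR} {S : Finset RR}
    (hf : Fs S (fun x => x)) (hD : D = ∏ ϖ ∈ S, ϖ) {P : Finset R}
    (hP : IsP (e aR) (e D) P) :
    (MP P).rank = (gm (mt (pe fun x : RR => x)) (mr (pe fun x : RR => x)) (se S)).rank ∧
      P.card = (se S).card := by
  classical
  have hmem : ∀ q : RR, e q ∈ P ↔ (q = -fR ∨ q ∈ S) := by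
    intro q
    rw [mem_ins hf hD, hP]
    have h1 : (2 * e aR - 1) * e D = e ((2 * aR - 1) * D) := by
      rw [map_mul, map_sub, map_mul, map_one, map_ofNat]
    have h2 : e aR ^ 2 = e (aR ^ 2) := (map_pow e _ _).symm
    have h3 : e q - 1 = e (q - 1) := by rw [map_sub, map_one]
    rw [h1, h2, h3]
    have h4 : ∀ x y : RR, e x ∣ e y ↔ x ∣ y := fun x y => map_dvd_iff e
    rw [h4, h4]
    exact and_congr_left fun _ => (MulEquiv.prime_iff e.toMulEquiv)
  have hnf : (-fR : RR) ∉ S := by
    intro h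
    apply hf.h7 _ h
    rw [neg_mem_iff]
    exact Ideal.mem_span_singleton_self _
  -- the map on the indices
  have hpe : ∀ o : se S, e (pe (fun x : RR => x) (o : Option RR)) ∈ P := by
    rintro ⟨o, ho⟩
    rcases o with _ | i
    · exact (hmem _).2 (Or.inl rfl)
    · exact (hmem _).2 (Or.inr (mem_se.1 ho))
  have hbij : Function.Bijective
      (fun o : se S => (⟨e (pe (fun x : RR => x) (o : Option RR)), hpe o⟩ : P)) := by
    constructor
    · rintro ⟨o, ho⟩ ⟨o', ho'⟩ h
      have h1 : e (pe (fun x : RR => x) o) = e (pe (fun x : RR => x) o') := congrArg Subtype.val h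
      have h2 := e.injective h1
      apply Subtype.ext
      show o = o'
      rcases o with _ | i <;> rcases o' with _ | i'
      · rfl
      · exfalso
        have h3 : -fR = i' := h2
        exact hnf (by rw [h3]; exact mem_se.1 ho')
      · exfalso
        have h3 : i = -fR := h2
        exact hnf (by rw [← h3]; exact mem_se.1 ho)
      · have h3 : i = i' := h2
        rw [h3]
    · rintro ⟨p, hp⟩
      obtain ⟨q, rfl⟩ := e.surjective p
      rcases (hmem q).1 hp with h | h
      · exact ⟨⟨none, none_se⟩, Subtype.ext (congrArg e h.symm)⟩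
      · exact ⟨⟨some q, mem_se.2 h⟩, rfl⟩
  obtain ⟨φ, hφ⟩ : ∃ φ : se S ≃ P, ∀ o, (φ o : R) = e (pe (fun x : RR => x) (o : Option RR)) :=
    ⟨Equiv.ofBijective _ hbij, fun o => rfl⟩
  have hns : ∀ x y : RR, ns (e x) (e y) = ns x y := by
    intro x y
    unfold ns
    have h1 : (∃ z : R, e x ∣ z ^ 2 - e y) ↔ ∃ z : RR, x ∣ z ^ 2 - y := by
      constructor
      · rintro ⟨z, hz⟩
        obtain ⟨z, rfl⟩ := e.surjective z
        refine ⟨z, ?_⟩
        rw [← map_pow, ← map_sub] at hz
        exact (map_dvd_iff e).1 hz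
      · rintro ⟨z, hz⟩
        refine ⟨e z, ?_⟩
        rw [← map_pow, ← map_sub]
        exact (map_dvd_iff e).2 hz
    by_cases h2 : ∃ z : RR, x ∣ z ^ 2 - y
    · rw [if_pos h2, if_pos (h1.2 h2)]
    · rw [if_neg h2, if_neg fun h3 => h2 (h1.1 h3)]
  have hr : ∀ i ∈ se S, ∀ j ∈ se S, i ≠ j →
      mr (pe (fun x : RR => x)) i j = ns (pe (fun x : RR => x) j) (pe (fun x : RR => x) i) := by
    intro i hi j hj hij
    unfold mr
    rw [ns_lg (hf.fa.ne i hi j hj hij)]
  have ht : ∀ i ∈ se S, mt (pe (fun x : RR => x)) i = ns (pe (fun x : RR => x) i) (-1) := by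
    intro i hi
    have h1 := (hf.fa.pn i hi).pr
    unfold Pool.Agent.H463.QE.mt tp
    rw [ns_lg (neg_one_notin h1)]
  refine ⟨?_, by rw [← Fintype.card_coe P, ← Fintype.card_coe (se S)]; exact (Fintype.card_congr φ).symm⟩
  rw [← Matrix.rank_submatrix (MP P) φ φ]
  congr 1
  ext i j
  unfold MP gm
  rw [Matrix.submatrix_apply, Matrix.of_apply, Matrix.of_apply]
  by_cases hij : i = j
  · subst hij
    rw [if_pos rfl, if_pos rfl, hφ, ht i i.2]
    have e1 : (-1 : R) = e (-1) := by rw [map_neg, map_one]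
    rw [e1, hns]
    congr 1
    symm
    refine Finset.sum_bij (fun k _ => e (pe (fun x : RR => x) k)) ?_ ?_ ?_ ?_
    · intro k hk
      rw [Finset.mem_erase] at hk ⊢
      refine ⟨fun h => hk.1 ?_, hpe ⟨k, hk.2⟩⟩
      have h2 := hbij.1 (a₁ := ⟨k, hk.2⟩) (a₂ := i) (Subtype.ext h)
      exact congrArg Subtype.val h2
    · intro k hk l hl h
      rw [Finset.mem_erase] at hk hl
      have h2 := hbij.1 (a₁ := ⟨k, hk.2⟩) (a₂ := ⟨l, hl.2⟩) (Subtype.ext h)
      exact congrArg Subtype.val h2
    · intro p hp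
      rw [Finset.mem_erase] at hp
      obtain ⟨k, hk⟩ := hbij.2 ⟨p, hp.2⟩
      have h3 : e (pe (fun x : RR => x) (k : Option RR)) = p := congrArg Subtype.val hk
      refine ⟨k, Finset.mem_erase.2 ⟨fun h => hp.1 ?_, k.2⟩, h3⟩
      rw [← h3, h]
    · intro k hk
      rw [Finset.mem_erase] at hk
      rw [hr i i.2 k hk.2 (Ne.symm hk.1), hns]
  · rw [if_neg (fun h => hij (φ.injective h)), if_neg hij, hφ, hφ, hns,
      hr i i.2 j j.2 (fun h => hij (Subtype.ext h))]

end Pool.Agent.H848.SF
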