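import Pool.Agent.H848.SF.Lin
import Pool.Agent.H463.QE.SelX

/-!
# Project SF: the classes of the Selmer groups

(The first half follows `Pool.Agent.H463.QE.selX`.)
-/

set_option autoImplicit false
set_option linter.unusedSectionVars false
set_option linter.unusedVariables false

attribute [-instance] DivisionRing.toRatAlgebra

open NumberField IsDedekindDomain

namespace Pool.Agent.H848.SF

open Pool.Agent.H463.QE
open Pool.Agent.R426.QC Pool.Agent.R426.QD
open Pool.Agent.Y698 Pool.Agent.Y698.SG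
open H667R3 Pool.Agent.W192.HK Pool.Agent.TH936.CM Pool.Agent.TH936.PU
open WithZero

/-- the normalized primes -/
noncomputable def pq {ι : Type} (π : ι → RR) : Option ι → RR
  | none => fR
  | some i => ps (π i)

/-- the class of a set of primes -/
noncomputable def dv {ι : Type} (π : ι → RR) (T : Finset (Option ι)) : RR := ∏ o ∈ T, pq π o

section

variable {K : Type} [Field K] [NumberField K] (e : RR ≃+* 𝓞 K)

/-- **the Selmer group** -/
theorem selY {ι : Type} [DecidableEq ι] {I : Finset ι} {π : ι → RR} (hf : Fs I π) {q : K}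
    (hq : q ≠ 0) (h : ∀ v : HeightOneSpectrum (𝓞 K), v.valuation K 7 = 1 →
      LCE (v.valuation K) (em e aR) (em e (∏ i ∈ I, π i)) q) :
    ∃ T ∈ Sg (mr (pe π)) (se I), ∃ c : K, q = em e (dv π T) * c ^ 2 := by
  classical
  have hb := ema_sq e
  have hpn := hf.e.fa.pn
  obtain ⟨d, w, hd, hw, hqd⟩ := exists_sqf e hq
  have hloc : ∀ {z : RR} (hz : Prime z), ¬ z ∣ 7 →
      LCE ((plc e hz).valuation K) (em e aR) (em e (∏ i ∈ I, π i)) (em e d) := by
    intro z hz h7
    have h7' : (plc e hz).valuation K 7 = 1 := by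
      have := val_one' e hz h7
      rwa [map_ofNat] at this
    refine (h _ h7').sqE hb ⟨w⁻¹, inv_ne_zero hw, ?_⟩
    rw [hqd]
    field_simp
  have hcop : ∀ a ∈ I, ∀ b ∈ I, a ≠ b → IsCoprime (π a) (π b) := fun a ha b hb hab =>
    ((hpn a ha).pr.irreducible.coprime_iff_not_dvd).2 fun h1 =>
      hf.e.fa.ne b hb a ha (Ne.symm hab) (Ideal.mem_span_singleton.2 h1)
  have hodd : ∀ {z : RR} (hz : Prime z) (x : K), (plc e hz).valuation K x = exp (-1) →
      ¬ Ev ((plc e hz).valuation K) x := by
    rintro z hz x hx ⟨y, hy, h⟩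
    refine ev_odd_val hy h (k := -1) ?_
    rw [hx]
    congr 1
  -- the primes of `d`
  have hprime : ∀ ρ : RR, Prime ρ → ρ ∣ d → ¬ ρ ∣ 7 → ρ ∣ ∏ i ∈ I, π i := by
    intro ρ hρ hρd h7
    by_contra hρP
    exact hodd hρ _ (val_sqf e hρ hd hρd) ((hloc hρ h7).1 (val_one' e hρ hρP)).1
  set T := I.filter (fun i => π i ∣ d) with hT
  have hTI : T ⊆ I := Finset.filter_subset _ _
  have hTd : (∏ i ∈ T, π i) ∣ d := by
    refine Finset.prod_dvd_of_coprime ?_ ?_
    · intro i hi j hj hij
      exact hcop i (hTI hi) j (hTI hj) hij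
    · intro i hi
      exact (Finset.mem_filter.1 hi).2
  set ε : Bool := decide (fR ∣ d) with hε
  have hεd : fb ε * ∏ i ∈ T, π i ∣ d := by
    by_cases h1 : fR ∣ d
    · have e1 : ε = true := by rw [hε]; exact decide_eq_true h1
      rw [e1]
      show fR * ∏ i ∈ T, π i ∣ d
      refine IsCoprime.mul_dvd ?_ h1 hTd
      refine IsCoprime.prod_right fun i hi => ?_
      refine (R426.QC.prime_fR.irreducible.coprime_iff_not_dvd).2 fun h2 => ?_
      exact hf.h7 i (hTI hi) (Ideal.mem_span_singleton.2 h2)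
    · have e1 : ε = false := by rw [hε]; exact decide_eq_false h1
      rw [e1]
      show 1 * ∏ i ∈ T, π i ∣ d
      rw [one_mul]
      exact hTd
  obtain ⟨u0, hu0⟩ := hεd
  have huu0 : IsUnit u0 := by
    by_contra hnu
    have hu00 : u0 ≠ 0 := by
      rintro rfl
      exact hd.ne_zero (by rw [hu0, mul_zero])
    obtain ⟨ρ, hρ, hρu⟩ := WfDvdMonoid.exists_irreducible_factor hnu hu00
    have hρ' : Prime ρ := hρ.prime
    have h1 : ρ ∣ d := by rw [hu0]; exact hρu.mul_left _
    have hass : ∀ l : RR, Prime l → ρ ∣ l → l ∣ ρ := fun l hl h2 =>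
      ((hρ.associated_of_dvd hl.irreducible h2).symm).dvd
    by_cases h7 : ρ ∣ 7
    · have h2 := hass fR R426.QC.prime_fR (dvd_fR hρ' h7)
      have h3 : fR ∣ d := h2.trans h1
      have e1 : ε = true := by rw [hε]; exact decide_eq_true h3
      rw [e1] at hu0
      have h4 : fR * fR ∣ d := by
        rw [hu0]
        exact mul_dvd_mul (Dvd.intro _ rfl) (h2.trans hρu)
      exact R426.QC.prime_fR.not_isUnit (hd _ h4)
    · obtain ⟨l, hl, hρl⟩ := (hρ'.dvd_finsetProd_iff _).1 (hprime ρ hρ' h1 h7)
      have h2 := hass _ (hpn l hl).pr hρl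
      have h4 : l ∈ T := Finset.mem_filter.2 ⟨hl, h2.trans h1⟩
      have h5 : π l * π l ∣ d := by
        rw [hu0]
        exact mul_dvd_mul ((Finset.dvd_prod_of_mem π h4).mul_left _) (h2.trans hρu)
      exact (hpn l hl).pr.not_isUnit (hd _ h5)
  -- the normalized product
  obtain ⟨u, hu, huu⟩ : ∃ u : RR, d = fb ε * (∏ i ∈ T, ps (π i)) * u ∧ (u = 1 ∨ u = -1) := by
    rcases prod_ps_sign T π with h1 | h1 <;> rcases isUnit_iff.1 huu0 with h2 | h2
    · exact ⟨1, by rw [hu0, h1, h2], Or.inl rfl⟩
    · exact ⟨-1, by rw [hu0, h1, h2], Or.inr rfl⟩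
    · exact ⟨-1, by rw [hu0, h1, h2]; ring, Or.inr rfl⟩
    · exact ⟨1, by rw [hu0, h1, h2]; ring, Or.inl rfl⟩
  have hps0 : ∀ (ε' : Bool) (U : Finset ι), U ⊆ I → fb ε' * ∏ i ∈ U, ps (π i) ≠ 0 := by
    intro ε' U hU h0
    rcases mul_eq_zero.1 h0 with h1 | h1
    · cases ε'
      · exact one_ne_zero h1
      · exact fR_ne h1
    · refine (Finset.prod_ne_zero_iff.2 fun i hi => ?_) h1
      rcases ps_assoc (π i) with h2 | h2 <;> rw [h2]
      · exact (hpn i (hU hi)).pr.ne_zero
      · exact neg_ne_zero.2 (hpn i (hU hi)).pr.ne_zero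
  -- the sign
  have hu1 : u = 1 := by
    rcases huu with h1 | h1
    · exact h1
    exfalso
    have hz := prime_cja
    have h2e : (2 : RR) = cj aR * aR := by rw [R426.QC.two_eq, mul_comm]
    have hnd : ¬ cj aR ∣ aR := by
      intro h2
      apply hz.not_isUnit
      have e1 : (1 : RR) = cj aR + aR := by rw [R426.QC.cj_aR]; ring
      exact isUnit_of_dvd_one (by rw [e1]; exact dvd_add dvd_rfl h2)
    have h2d : cj aR ∣ 2 := ⟨aR, h2e⟩
    have h7 : ¬ cj aR ∣ 7 := by
      intro h3
      apply hz.not_isUnit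
      have e1 : (1 : RR) = 7 - 2 * 3 := by norm_num
      exact isUnit_of_dvd_one (by rw [e1]; exact dvd_sub h3 (h2d.mul_right _))
    set W := (plc e hz).valuation K with hW
    have w7 : W 7 = 1 := by
      have := val_one' e hz h7
      rwa [map_ofNat] at this
    have w2 : W 2 = exp (-1) := by
      have := val_mul1 e hz h2e hnd
      rwa [map_ofNat] at this
    have w2' : W 2 < 1 := by rw [w2, ← exp_zero, exp_lt_exp]; norm_num
    have w4 : W 4 = W (em e (cj aR)) ^ 2 := by
      have h5 : W (em e aR) = 1 := val_one' e hz hnd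
      have h6 : (4 : K) = em e (cj aR) ^ 2 * em e aR ^ 2 := by
        have h8 : (4 : RR) = cj aR ^ 2 * aR ^ 2 := by rw [← mul_pow, ← h2e]; norm_num
        have h9 := congrArg (em e) h8
        rwa [map_ofNat, map_mul, map_pow, map_pow] at h9
      rw [h6, map_mul, map_pow, map_pow, h5, one_pow, mul_one]
    have hur : ∀ x : RR, r4 (cj x) = 1 → Ur W (em e x) := by
      intro x hx
      obtain ⟨c, hc⟩ := r4_cjdvd hx
      refine ⟨1, one_ne_zero, ?_⟩
      have e1 : em e x - 1 ^ 2 = em e (cj aR) ^ 2 * em e c := by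
        rw [one_pow, ← map_one (em e), ← map_sub, hc, map_mul, map_pow]
      rw [e1, map_mul, map_pow, w4, map_one, one_pow, mul_one]
      exact mul_le_of_le_one_right' (val_le e hz c)
    have h1b : W (1 - em e aR) < 1 := by
      have e1 : 1 - em e aR = em e (cj aR) := by rw [R426.QC.cj_aR, map_sub, map_one]
      rw [e1]
      exact (val_lt e hz _).2 dvd_rfl
    obtain ⟨J, hJ⟩ := hf.e.m4
    have hP1 : W (em e (∏ i ∈ I, π i)) = 1 := by
      refine val_one' e hz ?_
      rw [hJ]
      intro h3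
      apply hz.not_isUnit
      have e1 : (1 : RR) = (1 + 4 * J) - 2 * (2 * J) := by ring
      exact isUnit_of_dvd_one (by rw [e1]; exact dvd_sub h3 (h2d.mul_right _))
    have hU := ((hloc hz h7).1 hP1).2 h1b
    have hUT : Ur W (em e (∏ i ∈ T, ps (π i))) := by
      apply hur
      rw [map_prod]
      refine r4_prod fun i hi => ?_
      rw [cj_ps]
      exact (pn_cjp (hpn i (hTI hi))).r4
    have hUf : Ur W (em e (fb ε)) := by
      rw [em_fb]
      cases ε
      · simpa using hur 1 (by rw [map_one, map_one])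
      · simpa using (LC.s hb w7).2 h1b
    apply not_ur_neg_one (w := W) w2
    have h0 : em e (fb ε * ∏ i ∈ T, ps (π i)) ≠ 0 := em_ne e (hps0 ε T hTI)
    refine ((hU.mul w2' hUT).mul w2' hUf).sqE w2' ⟨(em e (fb ε * ∏ i ∈ T, ps (π i)))⁻¹,
      inv_ne_zero h0, ?_⟩
    rw [hu, h1]
    simp only [map_mul, map_neg, map_one] at h0 ⊢
    obtain ⟨h01, h02⟩ := mul_ne_zero_iff.1 h0
    field_simp
  subst hu1
  rw [mul_one] at hu
  -- the conditions at the primes
  have key : ∀ i ∈ I, (i ∉ T → (if ε then mr (pe π) (some i) none else 0) +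
        ∑ j ∈ T, mr (pe π) (some i) (some j) = 0) ∧
      (i ∈ T → (if !ε then mr (pe π) (some i) none else 0) +
        ∑ j ∈ I \ T, mr (pe π) (some i) (some j) = 0) := by
    intro i hi
    have hz := (hpn i hi).pr
    have h7n : ¬ π i ∣ 7 := fun h1 => hf.h7' i hi (Ideal.mem_span_singleton.2 (dvd_fR hz h1))
    have hl := (hloc hz h7n).2 ((val_lt e hz _).2 (Finset.dvd_prod_of_mem π hi))
    rw [← em_fR e, ← map_mul, ← map_mul] at hl
    have hunit : ∀ (ε' : Bool) (U : Finset ι), U ⊆ I → i ∉ U →
        ¬ π i ∣ fb ε' * ∏ j ∈ U, ps (π j) := fun ε' U hU hiU h1 =>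
      prodps_notin hf hU hi hiU ε' (Ideal.mem_span_singleton.2 h1)
    constructor
    · intro hiT
      rcases hl with h1 | h1
      · rw [hu] at h1
        exact lg_syX hf hTI hi hiT ε (sy_of_sq e hz (prodps_notin hf hTI hi hiT ε) h1)
      · exfalso
        refine hodd hz _ ?_ h1.ev
        rw [← prod_ps hf.e]
        have hps : ps (π i) = π i ∨ ps (π i) = -π i := ps_assoc _
        obtain ⟨σ, hσ, hσu⟩ : ∃ σ : RR, ps (π i) = π i * σ ∧ (σ = 1 ∨ σ = -1) := by
          rcases hps with h2 | h2
          · exact ⟨1, by rw [h2, mul_one], Or.inl rfl⟩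
          · exact ⟨-1, by rw [h2]; ring, Or.inr rfl⟩
        refine val_mul1 e hz (c := σ * (fR * (∏ j ∈ I.erase i, ps (π j)) *
          (fb ε * ∏ j ∈ T, ps (π j)))) ?_ ?_
        · rw [← Finset.mul_prod_erase I (fun j => ps (π j)) hi, hu, hσ]
          ring
        · intro h2
          rcases hz.dvd_or_dvd h2 with h3 | h3
          · rcases hσu with h4 | h4
            · rw [h4] at h3
              exact hz.not_isUnit (isUnit_of_dvd_one h3)
            · rw [h4, dvd_neg] at h3
              exact hz.not_isUnit (isUnit_of_dvd_one h3)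
          rcases hz.dvd_or_dvd h3 with h3 | h3
          · exact hunit true (I.erase i) (Finset.erase_subset _ _) (Finset.notMem_erase _ _) h3
          · exact hunit ε T hTI hiT h3
    · intro hiT
      have hiT' : i ∉ I \ T := fun h => (Finset.mem_sdiff.1 h).2 hiT
      rcases hl with h1 | h1
      · exfalso
        refine hodd hz _ ?_ h1.ev
        obtain ⟨σ, hσ, hσu⟩ : ∃ σ : RR, ps (π i) = π i * σ ∧ (σ = 1 ∨ σ = -1) := by
          rcases ps_assoc (π i) with h2 | h2
          · exact ⟨1, by rw [h2, mul_one], Or.inl rfl⟩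
          · exact ⟨-1, by rw [h2]; ring, Or.inr rfl⟩
        refine val_mul1 e hz (c := σ * (fb ε * ∏ j ∈ T.erase i, ps (π j))) ?_ ?_
        · rw [hu, ← Finset.mul_prod_erase T (fun j => ps (π j)) hiT, hσ]
          ring
        · intro h2
          rcases hz.dvd_or_dvd h2 with h3 | h3
          · rcases hσu with h4 | h4
            · rw [h4] at h3
              exact hz.not_isUnit (isUnit_of_dvd_one h3)
            · rw [h4, dvd_neg] at h3
              exact hz.not_isUnit (isUnit_of_dvd_one h3)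
          · exact hunit ε _ ((Finset.erase_subset _ _).trans hTI) (Finset.notMem_erase _ _) h3
      · have h3 : Sq ((plc e hz).valuation K) (em e (fb (!ε) * ∏ j ∈ I \ T, ps (π j))) := by
          have hne1 : em e (∏ j ∈ T, ps (π j)) ≠ 0 := by
            apply em_ne
            have := hps0 false T hTI
            rwa [show fb false = 1 from rfl, one_mul] at this
          have hne2 : em e fR ≠ 0 := em_ne e fR_ne
          refine h1.sqE ?_
          rw [hu, ← prod_ps hf.e, ← Finset.prod_sdiff hTI (f := fun j => ps (π j))]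
          cases ε
          · refine ⟨(em e (∏ j ∈ T, ps (π j)))⁻¹, inv_ne_zero hne1, ?_⟩
            rw [show fb false = 1 from rfl, show fb (!false) = fR from rfl, one_mul]
            simp only [map_mul]
            field_simp
          · refine ⟨(em e (fR * ∏ j ∈ T, ps (π j)))⁻¹, inv_ne_zero ?_, ?_⟩
            · rw [map_mul]
              exact mul_ne_zero hne2 hne1
            · rw [show fb true = fR from rfl, show fb (!true) = 1 from rfl, one_mul]
              simp only [map_mul]
              field_simp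
        exact lg_syX hf Finset.sdiff_subset hi hiT' (!ε)
          (sy_of_sq e hz (prodps_notin hf Finset.sdiff_subset hi hiT' (!ε)) h3)
  -- the subset with the index of `√-7`
  obtain ⟨T', hT'⟩ : ∃ T' : Finset (Option ι), T' = (se I).filter (fun o => match o with
    | none => ε = true
    | some i => i ∈ T) := ⟨_, rfl⟩
  have hT'I : T' ⊆ se I := by rw [hT']; exact Finset.filter_subset _ _
  have mem_n : none ∈ T' ↔ ε = true := by
    rw [hT', Finset.mem_filter]
    exact ⟨fun h => h.2, fun h => ⟨none_se, h⟩⟩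
  have mem_s : ∀ i, some i ∈ T' ↔ i ∈ T := by
    intro i
    rw [hT', Finset.mem_filter]
    exact ⟨fun h => h.2, fun h => ⟨mem_se.2 (hTI h), h⟩⟩
  have sumT : ∀ (f : Option ι → ZMod 2), ∑ o ∈ T', f o =
      (if ε then f none else 0) + ∑ i ∈ T, f (some i) := by
    intro f
    have h1 : ∑ o ∈ T', f o = ∑ o ∈ se I, (if o ∈ T' then f o else 0) := by
      rw [← Finset.sum_filter]
      congr 1
      ext o
      rw [Finset.mem_filter]
      exact ⟨fun h => ⟨hT'I h, h⟩, fun h => h.2⟩
    rw [h1, se_sumZ]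
    congr 1
    · by_cases h2 : ε = true
      · rw [if_pos (mem_n.2 h2), if_pos h2]
      · rw [if_neg (fun h => h2 (mem_n.1 h)), if_neg h2]
    · have h2 : ∀ i ∈ I, (if some i ∈ T' then f (some i) else 0) =
          if i ∈ T then f (some i) else 0 := by
        intro i _
        by_cases h3 : i ∈ T
        · rw [if_pos ((mem_s i).2 h3), if_pos h3]
        · rw [if_neg (fun h => h3 ((mem_s i).1 h)), if_neg h3]
      rw [Finset.sum_congr rfl h2, ← Finset.sum_filter]
      congr 1
      ext i
      rw [Finset.mem_filter]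
      exact ⟨fun h => h.2, fun h => ⟨hTI h, h⟩⟩
  have sumC : ∀ (f : Option ι → ZMod 2), ∑ o ∈ se I \ T', f o =
      (if !ε then f none else 0) + ∑ i ∈ I \ T, f (some i) := by
    intro f
    have h1 : ∑ o ∈ se I \ T', f o + ∑ o ∈ T', f o = ∑ o ∈ se I, f o :=
      Finset.sum_sdiff hT'I
    have h2 : ∑ i ∈ I \ T, f (some i) + ∑ i ∈ T, f (some i) = ∑ i ∈ I, f (some i) :=
      Finset.sum_sdiff hTI
    rw [sumT, se_sumZ, ← h2] at h1
    cases hεe : ε
    · rw [hεe] at h1
      simp only [Bool.false_eq_true, if_false, zero_add, Bool.not_false, if_true] at h1 ⊢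
      linear_combination h1
    · rw [hεe] at h1
      simp only [if_true, Bool.not_true, Bool.false_eq_true, if_false, zero_add] at h1 ⊢
      linear_combination h1
  have hsr := hf.sr
  have hx : ∀ o ∈ se I, o ≠ none → ∑ u ∈ se I, mr (pe π) o u * (ind T' o + ind T' u) = 0 := by
    intro o ho hon
    rcases o with _ | i
    · exact absurd rfl hon
    rw [ind_row hT'I]
    by_cases hiT : some i ∈ T'
    · rw [if_pos hiT, sumC]
      exact (key i (mem_se.1 ho)).2 ((mem_s i).1 hiT)
    · rw [if_neg hiT, sumT]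
      exact (key i (mem_se.1 ho)).1 fun h => hiT ((mem_s i).2 h)
  have hlast := hsr.last none_se hx
  refine ⟨T', mem_Sg.2 ⟨hT'I, fun o ho => ?_⟩, w, ?_⟩
  · by_cases hon : o = none
    · rw [hon]; exact hlast
    · exact hx o ho hon
  · rw [hqd, hu]
    congr 2
    unfold dv
    have h1 : ∏ o ∈ T', pq π o = ∏ o ∈ se I, (if o ∈ T' then pq π o else 1) := by
      rw [← Finset.prod_filter]
      congr 1
      ext o
      rw [Finset.mem_filter]
      exact ⟨fun h => ⟨hT'I h, h⟩, fun h => h.2⟩
    have h2 : ∏ o ∈ se I, (if o ∈ T' then pq π o else 1) =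
        (if none ∈ T' then pq π none else 1) * ∏ i ∈ I, (if some i ∈ T' then pq π (some i) else 1) := by
      unfold se
      exact Finset.prod_insertNone _ I
    have h3 : ∏ i ∈ I, (if some i ∈ T' then pq π (some i) else 1) = ∏ i ∈ T, ps (π i) := by
      rw [← Finset.prod_filter]
      refine Finset.prod_congr ?_ fun i _ => rfl
      ext i
      rw [Finset.mem_filter, mem_s]
      exact ⟨fun h => h.2, fun h => ⟨hTI h, h⟩⟩
    rw [h1, h2, h3]
    congr 1
    cases hεe : ε
    · rw [if_neg (fun h => by rw [mem_n, hεe] at h; cases h)]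
      rfl
    · rw [if_pos (mem_n.2 hεe)]
      rfl

end

end Pool.Agent.H848.SF
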