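import Pool.Agent.H848.SF.Up
import Pool.Agent.H463.QE.ShrX

/-!
# Project SF: the upper bound for the number of the locally trivial cocycles
-/

set_option autoImplicit false
set_option linter.unusedSectionVars false
set_option linter.unusedVariables false

attribute [-instance] DivisionRing.toRatAlgebra

open NumberField IsDedekindDomain

namespace Pool.Agent.H848.SF

open Pool.Agent.H463.QE
open Pool.Agent.R426.QC Pool.Agent.R426.QD
open Pool.Agent.Y698 Pool.Agent.Y698.SG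
open H667R3 Pool.Agent.W192.HK Pool.Agent.TH936.CM Pool.Agent.TH936.PU
open WithZero
open Pool.Agent.Y682 (S1 S2 IsT Zc Zc_card Zc_lower LL1 LL2 quot_eq)

section lin

variable {V : Type} [DecidableEq V] {t : V → ZMod 2} {r r' : V → V → ZMod 2} {S : Finset V}

lemma Sg_congr (h : ∀ i ∈ S, ∀ j ∈ S, i ≠ j → r i j = r' i j) : Sg r S = Sg r' S := by
  ext T
  rw [mem_Sg, mem_Sg]
  refine and_congr_right fun _ => forall₂_congr fun i hi => ?_
  have h1 : ∀ u ∈ S, r i u * (ind T i + ind T u) = r' i u * (ind T i + ind T u) := by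
    intro u hu
    by_cases hiu : i = u
    · subst hiu
      rw [add_self2, mul_zero, mul_zero]
    · rw [h i hi u hu hiu]
  rw [Finset.sum_congr rfl h1]

/-- the transposed matrix -/
lemma gm_tr (h : Sr t r S) : gm t (fun i j => r j i) S = (gm t r S).transpose := by
  ext i j
  rw [Matrix.transpose_apply]
  unfold gm
  rw [Matrix.of_apply, Matrix.of_apply]
  by_cases hij : i = j
  · subst hij
    rw [if_pos rfl, if_pos rfl]
    have h2 : ∀ k ∈ S.erase (i : V), r k i = r i k + t i * t k := by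
      intro k hk
      rw [Finset.mem_erase] at hk
      exact h.sy i i.2 k hk.2 (Ne.symm hk.1)
    rw [Finset.sum_congr rfl h2, Finset.sum_add_distrib, ← Finset.mul_sum]
    have h3 : ∑ k ∈ S.erase (i : V), t k = 1 - t i := by
      rw [← h.od, ← Finset.add_sum_erase S t i.2]
      ring
    rw [h3]
    have h4 : ∀ x : ZMod 2, x * (1 - x) = 0 := by decide
    rw [h4, add_zero]
  · rw [if_neg hij, if_neg (Ne.symm hij)]

lemma card_SgT (h : Sr t r S) {o : V} (ho : o ∈ S) :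
    (Sg (fun i j => r j i) S).card = 2 * 2 ^ (S.card - (gm t r S).rank) := by
  rw [card_Sg h.tr ho, gm_tr h, Matrix.rank_transpose]

end lin

lemma Sg_cjp {ι : Type} [DecidableEq ι] {I : Finset ι} {π : ι → RR} (hf : Fs I π) :
    Sg (mr (pe fun i => cjp (π i))) (se I) = Sg (fun i j => mr (pe π) j i) (se I) := by
  refine Sg_congr fun i hi j hj hij => ?_
  rw [pe_cjp]
  exact mr_cjp hf.fa hi hj hij

lemma pq_ne {ι : Type} {I : Finset ι} {π : ι → RR} (hf : Fs I π) {o : Option ι} (ho : o ∈ se I) :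
    pq π o ≠ 0 := by
  rcases o with _ | i
  · exact fR_ne
  · rcases ps_assoc (π i) with h2 | h2
    · show ps (π i) ≠ 0
      rw [h2]
      exact (hf.e.fa.pn i (mem_se.1 ho)).pr.ne_zero
    · show ps (π i) ≠ 0
      rw [h2]
      exact neg_ne_zero.2 (hf.e.fa.pn i (mem_se.1 ho)).pr.ne_zero

lemma dv_ne {ι : Type} {I : Finset ι} {π : ι → RR} (hf : Fs I π) {T : Finset (Option ι)}
    (hT : T ⊆ se I) : dv π T ≠ 0 :=
  Finset.prod_ne_zero_iff.2 fun _ ho => pq_ne hf (hT ho)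

section

variable {K : Type} [Field K] [NumberField K] (e : RR ≃+* 𝓞 K)

/-- the classes -/
theorem exists_U {ι : Type} [DecidableEq ι] {I : Finset ι} {π : ι → RR} (hf : Fs I π) :
    ∃ U : Set (Kˣ ⧸ Pool.Agent.Y682.Sq K), Finite U ∧ Nat.card U ≤ (Sg (mr (pe π)) (se I)).card ∧
      ∀ b : Kˣ, (∃ T ∈ Sg (mr (pe π)) (se I), ∃ c : K, (b : K) = em e (dv π T) * c ^ 2) →
        (b : Kˣ ⧸ Pool.Agent.Y682.Sq K) ∈ U := by
  classical
  obtain ⟨f, hfd⟩ : ∃ f : {T // T ∈ Sg (mr (pe π)) (se I)} → Kˣ ⧸ Pool.Agent.Y682.Sq K,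
      ∀ T, f T = ((Units.mk0 (em e (dv π T.1)) (em_ne e (dv_ne hf (mem_Sg.1 T.2).1)) : Kˣ) :
        Kˣ ⧸ Pool.Agent.Y682.Sq K) := ⟨_, fun _ => rfl⟩
  refine ⟨Set.range f, (Set.finite_range f).to_subtype, ?_, ?_⟩
  · have h1 : Nat.card (Set.range f) ≤ Nat.card {T // T ∈ Sg (mr (pe π)) (se I)} :=
      Nat.card_le_card_of_surjective (Set.rangeFactorization f) Set.rangeFactorization_surjective
    rwa [Nat.card_eq_fintype_card (α := {T // T ∈ Sg (mr (pe π)) (se I)}), Fintype.card_coe] at h1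
  · rintro b ⟨T, hT, c, hc⟩
    have hc0 : c ≠ 0 := by
      rintro rfl
      rw [zero_pow two_ne_zero, mul_zero] at hc
      exact b.ne_zero hc
    refine ⟨⟨T, hT⟩, ?_⟩
    rw [hfd, quot_eq]
    refine ⟨Units.mk0 c hc0, Units.ext ?_⟩
    rw [Units.val_mul, Units.val_pow_eq_pow_val, Units.val_mk0, Units.val_mk0, hc]

/-- the first Selmer group -/
theorem sel1Y {ι : Type} [DecidableEq ι] {I : Finset ι} {π : ι → RR} (hf : Fs I π)
    {q : K} (hq : q ≠ 0)
    (h : ∀ v : HeightOneSpectrum (𝓞 K), ∃ y m : v.adicCompletion K, y ≠ 0 ∧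
      algebraMap K (v.adicCompletion K) q * y ^ 2 = m ∧
      S1 (algebraMap K (v.adicCompletion K) (cA (em e aR) (em e (∏ i ∈ I, π i))))
        (algebraMap K (v.adicCompletion K) (cB (em e aR) (em e (∏ i ∈ I, π i)))) m) :
    ∃ T ∈ Sg (mr (pe π)) (se I), ∃ c : K, q = em e (dv π T) * c ^ 2 := by
  refine selY e hf hq fun v h7 => ?_
  exact LCE.glob1 v (ema_sq e) (lh_of e hf.sqf hf.e.m4 v h7) hq (h v)

/-- the second Selmer group -/
theorem sel2Y {ι : Type} [DecidableEq ι] {I : Finset ι} {π : ι → RR} (hf : Fs I π)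
    {q : K} (hq : q ≠ 0)
    (h : ∀ v : HeightOneSpectrum (𝓞 K), ∃ y m : v.adicCompletion K, y ≠ 0 ∧
      algebraMap K (v.adicCompletion K) q * y ^ 2 = m ∧
      S2 (algebraMap K (v.adicCompletion K) (cA (em e aR) (em e (∏ i ∈ I, π i))))
        (algebraMap K (v.adicCompletion K) (cB (em e aR) (em e (∏ i ∈ I, π i)))) m) :
    ∃ T ∈ Sg (mr (pe fun i => cjp (π i))) (se I), ∃ c : K,
      q = em (cjR.trans e) (dv (fun i => cjp (π i)) T) * c ^ 2 := by
  have hem : ∀ x : RR, em (cjR.trans e) x = em e (cj x) := fun x => rfl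
  have hD : em (cjR.trans e) (∏ i ∈ I, cjp (π i)) = em e (∏ i ∈ I, π i) := by
    rw [hem, prod_cjp hf.e, cj_cj]
  have ha : em (cjR.trans e) aR = 1 - em e aR := by
    rw [hem, R426.QC.cj_aR, map_sub, map_one]
  exact selY (cjR.trans e) (I := I) (π := fun i => cjp (π i)) hf.cj hq (fun v h7 => by
      rw [hD, ha]
      exact LCE.glob2 v (ema_sq e) (lh_of e hf.sqf hf.e.m4 v h7) hq (h v))

/-- **the upper bound** -/
theorem zc_le {ι : Type} [DecidableEq ι] {I : Finset ι} {π : ι → RR} (hf : Fs I π) {J : RR}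
    (hJ : ∏ i ∈ I, π i = 1 + 4 * J) :
    Finite (Zc (E2 K (em e J) (-((1 + 4 * em e J) * eB (em e aR))))) ∧
      Nat.card (Zc (E2 K (em e J) (-((1 + 4 * em e J) * eB (em e aR))))) ≤
        (Sg (mr (pe π)) (se I)).card * (Sg (fun i j => mr (pe π) j i) (se I)).card := by
  classical
  set a := em e aR with ha'
  have ha : a ^ 2 = a - 2 := ema_sq e
  set j := em e J with hj
  have hDj : em e (∏ i ∈ I, π i) = 1 + 4 * j := by
    rw [hJ, map_add, map_mul, map_one, map_ofNat]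
  have hD0' : (1 + 4 * j) ≠ 0 := by
    rw [← hDj]
    exact em_ne e hf.sqf.ne_zero
  have hT : IsT (E2 K j (-((1 + 4 * j) * eB a))) (cA a (1 + 4 * j)) (cB a (1 + 4 * j)) :=
    isT_E2 ha hD0'
  obtain ⟨U, hU1, hU2, hU3⟩ := exists_U e hf
  obtain ⟨U', hU1', hU2', hU3'⟩ := exists_U (cjR.trans e) hf.cj
  have H1 : ∀ b : Kˣ, LL1 (cA a (1 + 4 * j)) (cB a (1 + 4 * j)) (b : K) →
      (b : Kˣ ⧸ Pool.Agent.Y682.Sq K) ∈ U := by
    intro b hb
    apply hU3
    apply sel1Y e hf b.ne_zero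
    intro v
    rw [hDj]
    exact hb.1 v
  have H2 : ∀ b : Kˣ, LL2 (cA a (1 + 4 * j)) (cB a (1 + 4 * j)) (b : K) →
      (b : Kˣ ⧸ Pool.Agent.Y682.Sq K) ∈ U' := by
    intro b hb
    apply hU3'
    apply sel2Y e hf b.ne_zero
    intro v
    rw [hDj]
    exact hb.1 v
  have h1U : (1 : Kˣ ⧸ Pool.Agent.Y682.Sq K) ∈ U' := by
    have h1 := hU3' 1 ⟨∅, ?_, 1, ?_⟩
    · exact h1
    · rw [mem_Sg]
      refine ⟨Finset.empty_subset _, fun i _ => Finset.sum_eq_zero fun u _ => ?_⟩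
      unfold Pool.Agent.H463.QE.ind
      rw [if_neg (Finset.notMem_empty _), if_neg (Finset.notMem_empty _), add_zero, mul_zero]
    · unfold dv
      rw [Finset.prod_empty, map_one, one_pow, one_mul, Units.val_one]
  obtain ⟨hfz, hc⟩ := Zc_card hT h1U H1 H2
  refine ⟨hfz, hc.trans ?_⟩
  rw [Sg_cjp hf] at hU2'
  exact Nat.mul_le_mul hU2 hU2'

end

end Pool.Agent.H848.SF
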